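import Mathlib

set_option autoImplicit false

namespace Pool.Agent.H200Z

variable {V : Type} [DecidableEq V]

/-- A finite abstract simplicial complex with vertices in `V`: a finite family of finite sets that
contains the empty face and is closed under taking subsets. -/
def IsCx (K : Finset (Finset V)) : Prop :=
  ∅ ∈ K ∧ ∀ σ ∈ K, ∀ τ : Finset V, τ ⊆ σ → τ ∈ K

/-- The geometric realisation of `K` in barycentric coordinates, with the topology of `V → ℝ`. -/
def realization [Fintype V] (K : Finset (Finset V)) : Set (V → ℝ) :=
  {x | (∀ i, 0 ≤ x i) ∧ ∑ i, x i = 1 ∧ ∃ σ ∈ K, ∀ i, i ∉ σ → x i = 0}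

/-- `K` is a triangulated `d`-ball: a simplicial complex whose realisation is homeomorphic to the
closed unit ball of Euclidean `d`-space. -/
def IsBall [Fintype V] (d : ℕ) (K : Finset (Finset V)) : Prop :=
  IsCx K ∧ Nonempty (realization K ≃ₜ Metric.closedBall (0 : EuclideanSpace ℝ (Fin d)) 1)

/-- The deletion of the vertex `v`: the faces not containing `v`. -/
def del (K : Finset (Finset V)) (v : V) : Finset (Finset V) :=
  K.filter (fun σ => v ∉ σ)

/-- The link of the vertex `v`. -/
def lk (K : Finset (Finset V)) (v : V) : Finset (Finset V) :=
  K.filter (fun σ => v ∉ σ ∧ insert v σ ∈ K)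

/-- Non-evasive complexes: a single vertex, or a complex with a vertex whose deletion and link
are both non-evasive. -/
inductive NonEvasive : Finset (Finset V) → Prop
  | point (v : V) : NonEvasive {∅, {v}}
  | step (K : Finset (Finset V)) (v : V) : {v} ∈ K → NonEvasive (del K v) →
      NonEvasive (lk K v) → NonEvasive K

/-- A facet is a maximal face. -/
def IsFacet (K : Finset (Finset V)) (F : Finset V) : Prop :=
  F ∈ K ∧ ∀ σ ∈ K, F ⊆ σ → σ = F

/-- The simplices `A` and `B` have been glued to each other along their common ridge `A ∩ B`
(`G` is the list of gluings made so far). -/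
def Glued (G : List (Finset V × Finset V)) (A B : Finset V) : Prop :=
  (A, B) ∈ G ∨ (B, A) ∈ G

/-- The copy of the face `σ` in the simplex `A` and its copy in the simplex `B` are the same cell
of the pseudomanifold obtained by making the gluings `G`: one passes from `A` to `B` through glued
ridges that all contain `σ`. -/
def SameCell (G : List (Finset V × Finset V)) (σ A B : Finset V) : Prop :=
  Relation.ReflTransGen (fun X Y => Glued G X Y ∧ σ ⊆ X ∧ σ ⊆ Y) A B

/-- The copy of the ridge `r` in the simplex `A` is still a boundary face: it has not been
glued. -/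
def Unglued (G : List (Finset V × Finset V)) (A r : Finset V) : Prop :=
  ∀ B, Glued G A B → A ∩ B ≠ r

/-- The stages of a local construction of the pure `d`-dimensional complex `K`.  A stage is the
pseudomanifold obtained from the disjoint union of the simplices in `P` (facets of `K`) by making
the gluings in `G`.  One starts with one simplex, and either attaches a new simplex along one
boundary ridge, or identifies two boundary ridges that already share a codimension-two cell. -/
inductive LCStage (d : ℕ) (K : Finset (Finset V)) :
    List (Finset V) → List (Finset V × Finset V) → Prop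
  | start (A : Finset V) : IsFacet K A → LCStage d K [A] []
  | attach (P : List (Finset V)) (G : List (Finset V × Finset V)) (A B : Finset V) :
      LCStage d K P G → A ∈ P → IsFacet K B → B ∉ P → (A ∩ B).card = d →
      Unglued G A (A ∩ B) → LCStage d K (B :: P) ((A, B) :: G)
  | glue (P : List (Finset V)) (G : List (Finset V × Finset V)) (A B e : Finset V) :
      LCStage d K P G → A ∈ P → B ∈ P → (A ∩ B).card = d →
      Unglued G A (A ∩ B) → Unglued G B (A ∩ B) →
      e ⊆ A ∩ B → e.card + 1 = d → SameCell G e A B → LCStage d K P ((A, B) :: G)

/-- `K` is a locally constructible pure `d`-complex: some stage uses all facets of `K` and is `K`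
itself, that is, any two copies of a nonempty face of `K` have been identified. -/
def IsLC (d : ℕ) (K : Finset (Finset V)) : Prop :=
  (∀ F, IsFacet K F → F.card = d + 1) ∧
    ∃ (P : List (Finset V)) (G : List (Finset V × Finset V)), LCStage d K P G ∧
      (∀ F, IsFacet K F → F ∈ P) ∧
      ∀ σ : Finset V, σ.Nonempty → ∀ A ∈ P, ∀ B ∈ P, σ ⊆ A → σ ⊆ B → SameCell G σ A B

end Pool.Agent.H200Z
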