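import Mathlib
import Pool.Agent.H200Z.Defs

set_option autoImplicit false

namespace Pool.Agent.H200Z

open Finset

variable {V : Type} [DecidableEq V]

/-- down-closed families -/
def Down (K : Finset (Finset V)) : Prop := ∀ σ ∈ K, ∀ τ : Finset V, τ ⊆ σ → τ ∈ K

theorem mem_del {K : Finset (Finset V)} {v : V} {σ : Finset V} :
    σ ∈ del K v ↔ σ ∈ K ∧ v ∉ σ := by simp [del]

theorem mem_lk {K : Finset (Finset V)} {v : V} {σ : Finset V} :
    σ ∈ lk K v ↔ σ ∈ K ∧ v ∉ σ ∧ insert v σ ∈ K := by simp [lk]

theorem Down.del {K : Finset (Finset V)} (h : Down K) (v : V) : Down (del K v) := by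
  intro σ hσ τ hτ
  rw [mem_del] at hσ ⊢
  exact ⟨h σ hσ.1 τ hτ, fun hv => hσ.2 (hτ hv)⟩

theorem Down.lk {K : Finset (Finset V)} (h : Down K) (v : V) : Down (lk K v) := by
  intro σ hσ τ hτ
  rw [mem_lk] at hσ ⊢
  exact ⟨h σ hσ.1 τ hτ, fun hv => hσ.2.1 (hτ hv), h _ hσ.2.2 _ (insert_subset_insert v hτ)⟩

theorem NonEvasive.exists_vertex {K : Finset (Finset V)} (h : NonEvasive K) :
    ∃ t : V, {t} ∈ K := by
  cases h with
  | point v => exact ⟨v, by simp⟩
  | step _ v hv _ _ => exact ⟨v, hv⟩

theorem pair_mem_point {u w v : V} (h : ({u, w} : Finset V) ∈ ({∅, {v}} : Finset (Finset V))) :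
    u = v ∧ w = v := by
  rw [mem_insert, mem_singleton] at h
  rcases h with h | h
  · exact absurd h (insert_ne_empty _ _)
  · have h1 : u ∈ ({v} : Finset V) := by rw [← h]; simp
    have h2 : w ∈ ({v} : Finset V) := by rw [← h]; simp
    exact ⟨mem_singleton.1 h1, mem_singleton.1 h2⟩

/-- non-evasive complexes are connected -/
theorem NonEvasive.conn {K : Finset (Finset V)} (h : NonEvasive K) (hK : Down K)
    (P : V → Prop) (hP : ∀ u w, ({u, w} : Finset V) ∈ K → P u → P w) :
    ∀ u w, ({u} : Finset V) ∈ K → ({w} : Finset V) ∈ K → P u → P w := by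
  induction h with
  | point v =>
    intro u w hu hw h
    have h1 := (pair_mem_point (u := u) (w := u) (by simpa using hu)).1
    have h2 := (pair_mem_point (u := w) (w := w) (by simpa using hw)).1
    rw [h2, ← h1]; exact h
  | step K v hv _ hl ihd _ =>
    obtain ⟨t, ht⟩ := hl.exists_vertex
    rw [mem_lk] at ht
    have htv : v ≠ t := by simpa using ht.2.1
    have hd := ihd (hK.del v) (fun u w huw => hP u w (mem_del.1 huw).1)
    have hmem : ∀ u, ({u} : Finset V) ∈ K → u ≠ v → ({u} : Finset V) ∈ del K v := fun u hu huv =>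
      mem_del.2 ⟨hu, by simpa using huv.symm⟩
    have htd := hmem t ht.1 htv.symm
    intro u w hu hw h
    have h1 : P t := by
      by_cases huv : u = v
      · subst huv; exact hP u t ht.2.2 h
      · exact hd u t (hmem u hu huv) htd h
    by_cases hwv : w = v
    · subst hwv; exact hP t w (by rw [pair_comm]; exact ht.2.2) h1
    · exact hd t w htd (hmem w hw hwv) h1

/-- The extension lemma: in a non-evasive complex, compatible flat sections over the links of the
vertices of a clique `Z` extend to a flat section over the complement of `Z`. -/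
theorem NonEvasive.ext {X : Type} (c : V → V → X → X) (hid : ∀ u x, c u u x = x)
    {K : Finset (Finset V)} (h : NonEvasive K) :
    Down K → ∀ Z : Finset V, (∀ a ∈ Z, ∀ b ∈ Z, ({a, b} : Finset V) ∈ K) → Z.Nonempty →
    (∀ u w t, u ∉ Z → w ∉ Z → t ∉ Z → ({u, w, t} : Finset V) ∈ K →
      ∀ x, c u w (c w t x) = c u t x) →
    ∀ s : V → V → X, (∀ z ∈ Z, ∀ u w, u ∉ Z → w ∉ Z → ({z, u, w} : Finset V) ∈ K →
      s z u = c u w (s z w)) →
    (∀ z ∈ Z, ∀ z' ∈ Z, ∀ u, u ∉ Z → ({z, z', u} : Finset V) ∈ K → s z u = s z' u) →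
    ∃ s' : V → X, (∀ z ∈ Z, ∀ u, u ∉ Z → ({z, u} : Finset V) ∈ K → s' u = s z u) ∧
      ∀ u w, u ∉ Z → w ∉ Z → ({u, w} : Finset V) ∈ K → s' u = c u w (s' w) := by
  induction h with
  | point v =>
    intro _ Z hZ hne _ s _ _
    have hv : v ∈ Z := by
      obtain ⟨a, ha⟩ := hne
      exact (pair_mem_point (hZ a ha a ha)).1 ▸ ha
    refine ⟨s v, fun z _ u hu h => ?_, fun u w hu _ huw => ?_⟩
    · exact absurd ((pair_mem_point h).2 ▸ hv) hu
    · exact absurd ((pair_mem_point huw).1 ▸ hv) hu
  | step K v hv _ hl ihd _ =>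
    intro hK Z hZ hne hflat s hs hs2
    have hconn := hl.conn (hK.lk v)
    have hsub2 : ∀ a b : V, ({a, b} : Finset V) ∈ K → ({b} : Finset V) ∈ K := fun a b h =>
      hK _ h _ (by simp)
    have hlk1 : ∀ w, w ≠ v → ({v, w} : Finset V) ∈ K → ({w} : Finset V) ∈ lk K v :=
      fun w hwv h => mem_lk.2 ⟨hsub2 _ _ h, by simpa using hwv.symm, h⟩
    have hback : ∀ u w, u ∉ Z → w ∉ Z → ({u, w} : Finset V) ∈ K → ∀ x, c u w (c w u x) = x := by
      intro u w hu hw huw x
      rw [hflat u w u hu hw hu (by
        have : ({u, w, u} : Finset V) = {u, w} := by ext; simp; tauto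
        rw [this]; exact huw), hid]
    have hd : ∀ u w, u ≠ v → w ≠ v → ({u, w} : Finset V) ∈ K →
        ({u, w} : Finset V) ∈ del K v := fun u w hu hw huw => mem_del.2 ⟨huw, by
      simp only [mem_insert, mem_singleton, not_or]
      exact ⟨hu.symm, hw.symm⟩⟩
    have hedge : ∀ p q, ({p, q} : Finset V) ∈ lk K v → p ≠ v ∧ q ≠ v ∧
        ({p, q} : Finset V) ∈ del K v ∧ ({q, p} : Finset V) ∈ del K v ∧
        ({v, p, q} : Finset V) ∈ K ∧ ({v, q, p} : Finset V) ∈ K ∧
        ({p, v, q} : Finset V) ∈ K ∧ ({q, v, p} : Finset V) ∈ K ∧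
        ({p, q, v} : Finset V) ∈ K := by
      intro p q hpq
      have hpq' := mem_lk.1 hpq
      have hpv : p ≠ v := by
        intro h; exact hpq'.2.1 (by simp [h])
      have hqv : q ≠ v := by
        intro h; exact hpq'.2.1 (by simp [h])
      refine ⟨hpv, hqv, hd p q hpv hqv hpq'.1, hd q p hqv hpv (by rw [pair_comm]; exact hpq'.1),
        hpq'.2.2, ?_, ?_, ?_, ?_⟩ <;>
      · refine hK _ hpq'.2.2 _ ?_
        intro x
        simp only [mem_insert, mem_singleton]
        tauto
    by_cases hvZ : v ∈ Z
    · by_cases hZv : Z = {v}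
      · -- the face is the deleted vertex
        subst hZv
        obtain ⟨t, ht⟩ := hl.exists_vertex
        have ht' := mem_lk.1 ht
        have hnv : ∀ {σ : Finset V}, σ ∈ del K v → ∀ u ∈ σ, u ∉ ({v} : Finset V) := by
          intro σ hσ u hu h
          rw [mem_singleton] at h
          exact (mem_del.1 hσ).2 (h ▸ hu)
        obtain ⟨s1, h1, h2⟩ := ihd (hK.del v) {t} (by
            intro a ha b hb
            rw [mem_singleton] at ha hb
            subst ha hb
            rw [pair_eq_singleton]
            exact mem_del.2 ⟨ht'.1, ht'.2.1⟩) (by simp)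
          (fun u w r _ _ _ h => hflat u w r (hnv h u (by simp)) (hnv h w (by simp))
            (hnv h r (by simp)) (mem_del.1 h).1)
          (fun _ u => c u t (s v t)) (by
            intro z hz u w _ _ h
            rw [mem_singleton] at hz
            subst hz
            refine (hflat u w z (hnv h u (by simp)) (hnv h w (by simp)) (hnv h z (by simp)) ?_
              _).symm
            have : ({u, w, z} : Finset V) = {z, u, w} := by ext; simp; tauto
            rw [this]; exact (mem_del.1 h).1) (fun _ _ _ _ _ _ _ => rfl)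
        have hfl : ∀ u w, u ∉ ({v} : Finset V) → w ∉ ({v} : Finset V) →
            ({u, w} : Finset V) ∈ K →
            Function.update s1 t (s v t) u = c u w (Function.update s1 t (s v t) w) := by
          intro u w hu hw huw
          have hd' := hd u w (by simpa using hu) (by simpa using hw) huw
          by_cases hut : u = t
          · subst hut
            by_cases hwt : w = u
            · subst hwt; rw [hid]
            · rw [Function.update_self, Function.update_of_ne hwt,
                h1 u (by simp) w (by simpa using hwt) hd', hback u w hu hw huw]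
          · by_cases hwt : w = t
            · subst hwt
              rw [Function.update_self, Function.update_of_ne hut,
                h1 w (by simp) u (by simpa using hut) (by rw [pair_comm]; exact hd')]
            · rw [Function.update_of_ne hut, Function.update_of_ne hwt]
              exact h2 u w (by simpa using hut) (by simpa using hwt) hd'
        refine ⟨Function.update s1 t (s v t), ?_, hfl⟩
        intro z hz u hu hzu
        rw [mem_singleton] at hz
        subst hz
        refine hconn (fun u => Function.update s1 t (s z t) u = s z u) ?_ t u ht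
          (hlk1 u (by simpa using hu) hzu) (by simp)
        intro a b hab ha
        obtain ⟨e1, e2, _, e4, _, e6, _⟩ := hedge a b hab
        show Function.update s1 t (s z t) b = s z b
        rw [hfl b a (by simpa using e2) (by simpa using e1) (mem_del.1 e4).1, ha]
        exact (hs z (by simp) b a (by simpa using e2) (by simpa using e1) e6).symm
      · -- the deleted vertex is one of several vertices of the face
        have hne' : (Z.erase v).Nonempty := by
          rw [nonempty_iff_ne_empty]
          intro h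
          apply hZv
          rw [← insert_erase hvZ, h]; rfl
        have hZd : ∀ a ∈ Z.erase v, ∀ b ∈ Z.erase v, ({a, b} : Finset V) ∈ del K v :=
          fun a ha b hb => hd a b (mem_erase.1 ha).1 (mem_erase.1 hb).1
            (hZ a (mem_of_mem_erase ha) b (mem_of_mem_erase hb))
        have hnv : ∀ {σ : Finset V}, σ ∈ del K v → ∀ u ∈ σ, u ∉ Z.erase v → u ∉ Z := by
          intro σ hσ u hu h1 h
          exact h1 (mem_erase.2 ⟨fun h' => (mem_del.1 hσ).2 (h' ▸ hu), h⟩)
        obtain ⟨s1, h1, h2⟩ := ihd (hK.del v) (Z.erase v) hZd hne'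
          (fun u w r hu hw hr h => hflat u w r (hnv h u (by simp) hu) (hnv h w (by simp) hw)
            (hnv h r (by simp) hr) (mem_del.1 h).1)
          s (fun z hz u w hu hw h => hs z (mem_of_mem_erase hz) u w (hnv h u (by simp) hu)
            (hnv h w (by simp) hw) (mem_del.1 h).1)
          (fun z hz z' hz' u hu h => hs2 z (mem_of_mem_erase hz) z' (mem_of_mem_erase hz') u
            (hnv h u (by simp) hu) (mem_del.1 h).1)
        have hnZ : ∀ u, u ∉ Z → u ≠ v := fun u hu h => hu (h ▸ hvZ)
        have hnZ' : ∀ u, u ∉ Z → u ∉ Z.erase v := fun u hu h => hu (mem_of_mem_erase h)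
        refine ⟨s1, ?_, fun u w hu hw huw =>
          h2 u w (hnZ' u hu) (hnZ' w hw) (hd u w (hnZ u hu) (hnZ w hw) huw)⟩
        intro z hz u hu hzu
        by_cases hzv : z = v
        · subst hzv
          obtain ⟨z', hz'⟩ := hne'
          have hz'' := mem_erase.1 hz'
          have hst : ({z'} : Finset V) ∈ lk K z := hlk1 z' hz''.1 (hZ z hz z' hz''.2)
          have := hconn (fun u => u ∈ Z ∨ s1 u = s z u) ?_ z' u hst (hlk1 u (hnZ u hu) hzu)
            (Or.inl hz''.2)
          · exact this.resolve_left hu
          intro a b hab ha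
          obtain ⟨e1, _, e3, e4, _, e6, e7, _⟩ := hedge a b hab
          by_cases hbZ : b ∈ Z
          · exact Or.inl hbZ
          right
          by_cases haZ : a ∈ Z
          · rw [h1 a (mem_erase.2 ⟨e1, haZ⟩) b (hnZ' b hbZ) e3]
            exact hs2 a haZ z hz b hbZ e7
          · rw [h2 b a (hnZ' b hbZ) (hnZ' a haZ) e4, ha.resolve_left haZ]
            exact (hs z hz b a hbZ haZ e6).symm
        · exact h1 z (mem_erase.2 ⟨hzv, hz⟩) u (hnZ' u hu) (hd z u hzv (hnZ u hu) hzu)
    · -- the deleted vertex is outside the face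
      obtain ⟨s1, h1, h2⟩ := ihd (hK.del v) Z (fun a ha b hb => hd a b (fun h => hvZ (h ▸ ha))
          (fun h => hvZ (h ▸ hb)) (hZ a ha b hb)) hne
        (fun u w r hu hw hr h => hflat u w r hu hw hr (mem_del.1 h).1)
        s (fun z hz u w hu hw h => hs z hz u w hu hw (mem_del.1 h).1)
        (fun z hz z' hz' u hu h => hs2 z hz z' hz' u hu (mem_del.1 h).1)
      obtain ⟨t, ht⟩ := hl.exists_vertex
      obtain ⟨a, ha⟩ : ∃ a : X, (t ∈ Z ∧ a = s t v) ∨ (t ∉ Z ∧ a = c v t (s1 t)) := by
        by_cases htZ : t ∈ Z
        · exact ⟨_, Or.inl ⟨htZ, rfl⟩⟩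
        · exact ⟨_, Or.inr ⟨htZ, rfl⟩⟩
      have hall : ∀ w, w ≠ v → ({v, w} : Finset V) ∈ K →
          (w ∈ Z ∧ a = s w v) ∨ (w ∉ Z ∧ a = c v w (s1 w)) := by
        intro w hwv hvw
        refine hconn (fun w => (w ∈ Z ∧ a = s w v) ∨ (w ∉ Z ∧ a = c v w (s1 w))) ?_ t w ht
          (hlk1 w hwv hvw) ha
        intro p q hpq hp
        obtain ⟨_, _, e3, e4, e5, _, e7, e8, e9⟩ := hedge p q hpq
        by_cases hqZ : q ∈ Z
        · left
          refine ⟨hqZ, ?_⟩
          rcases hp with ⟨hpZ, hp⟩ | ⟨hpZ, hp⟩
          · rw [hp]; exact hs2 p hpZ q hqZ v hvZ e9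
          · rw [hp, h1 q hqZ p hpZ e4]
            exact (hs q hqZ v p hvZ hpZ e8).symm
        · right
          refine ⟨hqZ, ?_⟩
          rcases hp with ⟨hpZ, hp⟩ | ⟨hpZ, hp⟩
          · rw [hp, h1 p hpZ q hqZ e3]
            exact hs p hpZ v q hvZ hqZ e7
          · rw [hp, h2 p q hpZ hqZ e3]
            exact hflat v p q hvZ hpZ hqZ e5 _
      have hall' : ∀ w, w ≠ v → w ∉ Z → ({v, w} : Finset V) ∈ K → a = c v w (s1 w) := by
        intro w hwv hwZ hvw
        rcases hall w hwv hvw with h | h
        · exact absurd h.1 hwZ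
        · exact h.2
      refine ⟨Function.update s1 v a, ?_, ?_⟩
      · intro z hz u hu hzu
        have hzv : z ≠ v := fun h => hvZ (h ▸ hz)
        by_cases huv : u = v
        · subst huv
          rw [Function.update_self]
          rcases hall z hzv (by rw [pair_comm]; exact hzu) with h | h
          · exact h.2
          · exact absurd hz h.1
        · rw [Function.update_of_ne huv]
          exact h1 z hz u hu (hd z u hzv huv hzu)
      · intro u w hu hw huw
        by_cases huv : u = v
        · subst huv
          by_cases hwv : w = u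
          · subst hwv; rw [hid]
          · rw [Function.update_self, Function.update_of_ne hwv]
            exact hall' w hwv hw huw
        · by_cases hwv : w = v
          · subst hwv
            rw [Function.update_self, Function.update_of_ne huv,
              hall' u huv hu (by rw [pair_comm]; exact huw), hback u w hu hw huw]
          · rw [Function.update_of_ne huv, Function.update_of_ne hwv]
            exact h2 u w hu hw (hd u w huv hwv huw)

end Pool.Agent.H200Z
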