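import Mathlib
import Pool.Agent.H200Z.NE
import Pool.Agent.Helper175.NS.Top

set_option autoImplicit false

namespace Pool.Agent.H200Z

open Finset

variable {V : Type} [DecidableEq V]

/-- the complex generated by a family of facets -/
def gen (L : Finset (Finset V)) : Finset (Finset V) := L.biUnion powerset

theorem mem_gen {L : Finset (Finset V)} {σ : Finset V} : σ ∈ gen L ↔ ∃ F ∈ L, σ ⊆ F := by
  simp [gen]

theorem down_gen (L : Finset (Finset V)) : Down (gen L) := by
  intro σ hσ τ hτ
  obtain ⟨F, hF, h⟩ := mem_gen.1 hσ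
  exact mem_gen.2 ⟨F, hF, hτ.trans h⟩

theorem isCx_gen {L : Finset (Finset V)} (h : L.Nonempty) : IsCx (gen L) := by
  obtain ⟨F, hF⟩ := h
  exact ⟨mem_gen.2 ⟨F, hF, empty_subset _⟩, down_gen L⟩

theorem realization_gen [Fintype V] (L : Finset (Finset V)) :
    realization (gen L) = Helper175.NS.Sp L := by
  ext x
  constructor
  · rintro ⟨h0, h1, σ, hσ, h2⟩
    obtain ⟨F, hF, h⟩ := mem_gen.1 hσ
    have h3 : ∀ v, v ∉ F → x v = 0 := fun v hv => h2 v (fun h' => hv (h h'))
    refine ⟨h0, F, hF, h3, ?_⟩
    rw [← h1]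
    exact sum_subset (subset_univ _) (fun v _ hv => h3 v hv)
  · rintro ⟨h0, F, hF, h2, h1⟩
    refine ⟨h0, ?_, F, mem_gen.2 ⟨F, hF, Subset.refl _⟩, h2⟩
    rw [← h1]
    exact (sum_subset (subset_univ _) (fun v _ hv => h2 v hv)).symm

/-- a suspension is non-evasive only if the suspended complex is -/
theorem NonEvasive.of_susp {a b : V} (hab : a ≠ b) {L : Finset (Finset V)} (h : NonEvasive L) :
    ∀ K : Finset (Finset V), Down K → ∅ ∈ K → (∀ σ ∈ K, a ∉ σ ∧ b ∉ σ) →
      (∀ σ, σ ∈ L ↔ (σ.erase a).erase b ∈ K ∧ ¬ (a ∈ σ ∧ b ∈ σ)) → NonEvasive K := by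
  induction h with
  | point v =>
    intro K _ h0 _ hL
    exfalso
    have ha : ({a} : Finset V) ∈ ({∅, {v}} : Finset (Finset V)) := by
      rw [hL]; simp [h0, hab.symm]
    have hb : ({b} : Finset V) ∈ ({∅, {v}} : Finset (Finset V)) := by
      rw [hL]
      have : (({b} : Finset V).erase a).erase b = ∅ := by
        ext x; simp; tauto
      rw [this]; simp [h0, hab]
    have h1 := (pair_mem_point (u := a) (w := a) (by simpa using ha)).1
    have h2 := (pair_mem_point (u := b) (w := b) (by simpa using hb)).1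
    exact hab (h1.trans h2.symm)
  | step L v hv _ hl ihd ihl =>
    intro K hK h0 hK' hL
    have hself : ∀ σ : Finset V, a ∉ σ → b ∉ σ → (σ.erase a).erase b = σ := by
      intro σ h1 h2
      rw [erase_eq_of_notMem h1, erase_eq_of_notMem h2]
    by_cases hva : v = a
    · subst hva
      have : lk L v = K := by
        ext σ
        rw [mem_lk, hL, hL]
        constructor
        · rintro ⟨⟨h1, _⟩, h2, _, h4⟩
          have h5 : b ∉ σ := fun h => h4 ⟨by simp, by simp [h]⟩
          rwa [hself σ h2 h5] at h1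
        · intro h
          obtain ⟨h1, h2⟩ := hK' σ h
          refine ⟨⟨by rwa [hself σ h1 h2], fun h => h1 h.1⟩, h1, ?_, ?_⟩
          · rw [erase_insert h1, erase_eq_of_notMem h2]; exact h
          · rintro ⟨_, h3⟩
            rcases mem_insert.1 h3 with h3 | h3
            · exact hab h3.symm
            · exact h2 h3
      rw [← this]; exact hl
    by_cases hvb : v = b
    · subst hvb
      have : lk L v = K := by
        ext σ
        rw [mem_lk, hL, hL]
        constructor
        · rintro ⟨⟨h1, _⟩, h2, _, h4⟩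
          have h5 : a ∉ σ := fun h => h4 ⟨by simp [h], by simp⟩
          rwa [hself σ h5 h2] at h1
        · intro h
          obtain ⟨h1, h2⟩ := hK' σ h
          refine ⟨⟨by rwa [hself σ h1 h2], fun h => h1 h.1⟩, h2, ?_, ?_⟩
          · have : a ∉ insert v σ := by simp [hab, h1]
            rw [erase_eq_of_notMem this, erase_insert h2]; exact h
          · rintro ⟨h3, _⟩
            rcases mem_insert.1 h3 with h3 | h3
            · exact hab h3
            · exact h1 h3
      rw [← this]; exact hl
    have hve : ∀ σ : Finset V, v ∈ (σ.erase a).erase b ↔ v ∈ σ := by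
      intro σ; simp [hva, hvb]
    have hins : ∀ σ : Finset V, ((insert v σ).erase a).erase b = insert v ((σ.erase a).erase b) := by
      intro σ
      rw [erase_insert_of_ne hva, erase_insert_of_ne hvb]
    have hvK : ({v} : Finset V) ∈ K := by
      have := ((hL _).1 hv).1
      rwa [hself _ (by simpa using Ne.symm hva) (by simpa using Ne.symm hvb)] at this
    refine NonEvasive.step K v hvK ?_ ?_
    · refine ihd _ (hK.del v) (mem_del.2 ⟨h0, by simp⟩) (fun σ h => hK' σ (mem_del.1 h).1) ?_
      intro σ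
      rw [mem_del, mem_del, hL, hve]
      tauto
    · refine ihl _ (hK.lk v) (mem_lk.2 ⟨h0, by simp, hvK⟩) (fun σ h => hK' σ (mem_lk.1 h).1) ?_
      intro σ
      rw [mem_lk, mem_lk, hL, hL, hve, hins]
      have h1 : a ∈ insert v σ ↔ a ∈ σ := by simp [Ne.symm hva]
      have h2 : b ∈ insert v σ ↔ b ∈ σ := by simp [Ne.symm hvb]
      rw [h1, h2]
      tauto

theorem mem_gen_susp {a b : V} {Φ : Finset (Finset V)} (hΦ : ∀ F ∈ Φ, a ∉ F ∧ b ∉ F)
    (hab : a ≠ b) (σ : Finset V) :
    σ ∈ gen (Φ.image (insert a) ∪ Φ.image (insert b)) ↔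
      (σ.erase a).erase b ∈ gen Φ ∧ ¬ (a ∈ σ ∧ b ∈ σ) := by
  rw [mem_gen, mem_gen]
  constructor
  · rintro ⟨G, hG, h⟩
    rcases mem_union.1 hG with hG | hG
    · obtain ⟨F, hF, rfl⟩ := mem_image.1 hG
      refine ⟨⟨F, hF, fun x hx => ?_⟩, fun h' => ?_⟩
      · simp only [mem_erase] at hx
        exact (mem_insert.1 (h hx.2.2)).resolve_left hx.2.1
      · rcases mem_insert.1 (h h'.2) with h1 | h1
        · exact hab h1.symm
        · exact (hΦ F hF).2 h1
    · obtain ⟨F, hF, rfl⟩ := mem_image.1 hG
      refine ⟨⟨F, hF, fun x hx => ?_⟩, fun h' => ?_⟩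
      · simp only [mem_erase] at hx
        exact (mem_insert.1 (h hx.2.2)).resolve_left hx.1
      · rcases mem_insert.1 (h h'.1) with h1 | h1
        · exact hab h1
        · exact (hΦ F hF).1 h1
  · rintro ⟨⟨F, hF, h⟩, h'⟩
    by_cases ha : a ∈ σ
    · have hb : b ∉ σ := fun hb => h' ⟨ha, hb⟩
      refine ⟨insert a F, mem_union_left _ (mem_image_of_mem _ hF), fun x hx => ?_⟩
      by_cases hxa : x = a
      · simp [hxa]
      · exact mem_insert_of_mem (h (mem_erase.2 ⟨fun h => hb (h ▸ hx), mem_erase.2 ⟨hxa, hx⟩⟩))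
    · refine ⟨insert b F, mem_union_right _ (mem_image_of_mem _ hF), fun x hx => ?_⟩
      by_cases hxb : x = b
      · simp [hxb]
      · exact mem_insert_of_mem (h (mem_erase.2 ⟨hxb, mem_erase.2 ⟨fun h => ha (h ▸ hx), hx⟩⟩))

/-- cones are non-evasive -/
theorem nonEvasive_cone (a : V) (N : ℕ) : ∀ L : Finset (Finset V), L.card ≤ N → Down L → ∅ ∈ L →
    (∀ σ ∈ L, insert a σ ∈ L) → NonEvasive L := by
  induction N with
  | zero =>
    intro L h _ h0 _
    have : L = ∅ := card_eq_zero.1 (Nat.le_zero.1 h)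
    rw [this] at h0
    exact absurd h0 (by simp)
  | succ N ih =>
    intro L hc hL h0 ha
    by_cases hex : ∃ v, v ≠ a ∧ ({v} : Finset V) ∈ L
    · obtain ⟨v, hva, hv⟩ := hex
      have hlt : ∀ M : Finset (Finset V), M ⊆ L → ({v} : Finset V) ∉ M → M.card ≤ N := by
        intro M hM hvM
        have : M ⊂ L := ⟨hM, fun h => hvM (h hv)⟩
        have := card_lt_card this
        omega
      refine NonEvasive.step L v hv ?_ ?_
      · refine ih _ (hlt _ (filter_subset _ _) (by simp [mem_del])) (hL.del v)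
          (mem_del.2 ⟨h0, by simp⟩) (fun σ hσ => ?_)
        rw [mem_del] at hσ ⊢
        exact ⟨ha σ hσ.1, by simp [hva, hσ.2]⟩
      · refine ih _ (hlt _ (filter_subset _ _) (by simp [mem_lk])) (hL.lk v)
          (mem_lk.2 ⟨h0, by simp, hv⟩) (fun σ hσ => ?_)
        rw [mem_lk] at hσ ⊢
        refine ⟨ha σ hσ.1, by simp [hva, hσ.2.1], ?_⟩
        rw [insert_comm]
        exact ha _ hσ.2.2
    · push Not at hex
      have : L = {∅, {a}} := by
        ext σ
        rw [mem_insert, mem_singleton]
        constructor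
        · intro hσ
          have : σ ⊆ {a} := by
            intro x hx
            rw [mem_singleton]
            by_contra hxa
            exact hex x hxa (hL σ hσ _ (by simpa using hx))
          exact subset_singleton_iff.1 this
        · rintro (rfl | rfl)
          · exact h0
          · exact ha ∅ h0
      rw [this]
      exact NonEvasive.point a

/-- a non-evasive complex has a face contained in exactly one larger face -/
theorem NonEvasive.exists_free {K : Finset (Finset V)} (h : NonEvasive K) (hK : Down K) :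
    ∃ (σ : Finset V) (u : V), u ∉ σ ∧ insert u σ ∈ K ∧
      ∀ ρ ∈ K, σ ⊆ ρ → ρ ⊆ insert u σ := by
  induction h with
  | point v =>
    refine ⟨∅, v, by simp, by simp, fun ρ hρ _ => ?_⟩
    rw [mem_insert, mem_singleton] at hρ
    rcases hρ with rfl | rfl <;> simp
  | step K v _ _ _ _ ihl =>
    obtain ⟨σ, u, h1, h2, h3⟩ := ihl (hK.lk v)
    rw [mem_lk] at h2
    have huv : u ≠ v := fun h => h2.2.1 (by simp [h])
    refine ⟨insert v σ, u, by simp [huv, h1], by rw [insert_comm]; exact h2.2.2,
      fun ρ hρ hσρ => ?_⟩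
    have hvρ : v ∈ ρ := hσρ (by simp)
    have hvσ : v ∉ σ := fun h => h2.2.1 (by simp [h])
    have h4 := h3 (ρ.erase v) (mem_lk.2 ⟨hK _ hρ _ (erase_subset _ _), by simp, by
      rw [insert_erase hvρ]; exact hρ⟩) (fun x hx => mem_erase.2
        ⟨fun h => hvσ (h ▸ hx), hσρ (mem_insert_of_mem hx)⟩)
    intro x hx
    by_cases hxv : x = v
    · simp [hxv]
    · have := h4 (mem_erase.2 ⟨hxv, hx⟩)
      simp only [mem_insert] at this ⊢
      tauto

/-- the link of a vertex all of whose ridges are interior is evasive -/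
theorem not_nonEvasive_lk {Φ : Finset (Finset V)} {v : V}
    (h : ∀ F ∈ Φ, v ∈ F → ∀ u ∈ F, u ≠ v → ∃ F' ∈ Φ, F.erase u ⊆ F' ∧ ¬ F' ⊆ F) :
    ¬ NonEvasive (lk (gen Φ) v) := by
  intro hne
  obtain ⟨σ, u, h1, h2, h3⟩ := hne.exists_free ((down_gen Φ).lk v)
  rw [mem_lk] at h2
  obtain ⟨F, hF, hs⟩ := mem_gen.1 h2.2.2
  have huv : u ≠ v := fun h => h2.2.1 (by simp [h])
  have hvσ : v ∉ σ := fun h => h2.2.1 (by simp [h])
  have key : ∀ G ∈ Φ, insert v σ ⊆ G → G ⊆ insert v (insert u σ) := by
    intro G hG hσG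
    have hvG : v ∈ G := hσG (by simp)
    have h4 := h3 (G.erase v) (mem_lk.2 ⟨mem_gen.2 ⟨G, hG, erase_subset _ _⟩, by simp, by
      rw [insert_erase hvG]; exact mem_gen.2 ⟨G, hG, Subset.refl _⟩⟩) (fun x hx => mem_erase.2
        ⟨fun h => hvσ (h ▸ hx), hσG (mem_insert_of_mem hx)⟩)
    intro x hx
    by_cases hxv : x = v
    · simp [hxv]
    · exact mem_insert_of_mem (h4 (mem_erase.2 ⟨hxv, hx⟩))
  obtain ⟨F', hF', h5, h6⟩ := h F hF (hs (by simp)) u (hs (by simp)) huv
  apply h6
  refine (key F' hF' (fun x hx => h5 (mem_erase.2 ⟨?_, hs ?_⟩))).trans hs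
  · rintro rfl
    rcases mem_insert.1 hx with h | h
    · exact huv h
    · exact h1 h
  · simp only [mem_insert] at hx ⊢
    tauto

/-- the standard simplex is a ball -/
theorem simplex_ball (d : ℕ) :
    Nonempty (Helper175.NS.Sp ({univ} : Finset (Finset (Fin (d + 1)))) ≃ₜ
      Metric.closedBall (0 : EuclideanSpace ℝ (Fin d)) 1) := by
  let T : Set (EuclideanSpace ℝ (Fin d)) := {y | (∀ i, 0 ≤ y i) ∧ ∑ i, y i ≤ 1}
  have hconv : Convex ℝ T := by
    intro x hx y hy a b ha hb hab
    refine ⟨fun i => ?_, ?_⟩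
    · have := hx.1 i; have := hy.1 i
      simp only [PiLp.add_apply, PiLp.smul_apply, smul_eq_mul]
      positivity
    · simp only [PiLp.add_apply, PiLp.smul_apply, smul_eq_mul, sum_add_distrib, ← mul_sum]
      nlinarith [hx.2, hy.2]
  have hclosed : IsClosed T := by
    have h1 : IsClosed {y : EuclideanSpace ℝ (Fin d) | ∀ i, 0 ≤ y i} := by
      rw [Set.ofPred_forall]
      exact isClosed_iInter fun i => isClosed_le continuous_const (by fun_prop)
    have h2 : IsClosed {y : EuclideanSpace ℝ (Fin d) | ∑ i, y i ≤ 1} :=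
      isClosed_le (by fun_prop) continuous_const
    exact h1.inter h2
  have hbd : Bornology.IsBounded T := by
    refine (Metric.isBounded_closedBall (x := (0 : EuclideanSpace ℝ (Fin d))) (r := 1)).subset ?_
    intro y hy
    rw [mem_closedBall_zero_iff, EuclideanSpace.norm_eq, Real.sqrt_le_one]
    refine le_trans (sum_le_sum fun i _ => ?_) hy.2
    have h1 : y i ≤ 1 := le_trans (single_le_sum (fun j _ => hy.1 j) (mem_univ i)) hy.2
    have h2 := hy.1 i
    rw [Real.norm_eq_abs, sq_abs]
    nlinarith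
  have hint : (interior T).Nonempty := by
    let U : Set (EuclideanSpace ℝ (Fin d)) := {y | (∀ i, 0 < y i) ∧ ∑ i, y i < 1}
    have hU : IsOpen U := by
      have h1 : IsOpen {y : EuclideanSpace ℝ (Fin d) | ∀ i, 0 < y i} := by
        rw [Set.ofPred_forall]
        exact isOpen_iInter_of_finite fun i => isOpen_lt continuous_const (by fun_prop)
      have h2 : IsOpen {y : EuclideanSpace ℝ (Fin d) | ∑ i, y i < 1} :=
        isOpen_lt (by fun_prop) continuous_const
      exact h1.inter h2
    have hUT : U ⊆ T := fun y hy => ⟨fun i => (hy.1 i).le, hy.2.le⟩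
    refine ⟨WithLp.toLp 2 (fun _ => 1 / ((d : ℝ) + 1)), interior_maximal hUT hU ⟨fun i => ?_, ?_⟩⟩
    · show (0 : ℝ) < 1 / ((d : ℝ) + 1)
      positivity
    · show ∑ _i : Fin d, (1 / ((d : ℝ) + 1)) < 1
      rw [sum_const, card_univ, Fintype.card_fin, nsmul_eq_mul, mul_one_div, div_lt_one (by positivity)]
      linarith
  obtain ⟨e, -, he, -⟩ :=
    exists_homeomorph_image_interior_closure_frontier_eq_unitBall hconv hint hbd
  rw [hclosed.closure_eq] at he
  refine ⟨Homeomorph.trans ?_ ((e.image T).trans (Homeomorph.setCongr he))⟩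
  exact
    { toFun := fun x => ⟨WithLp.toLp 2 (fun i => x.1 i.succ), by
        obtain ⟨h0, F, hF, _, h1⟩ := x.2
        rw [mem_singleton] at hF
        subst hF
        refine ⟨fun i => h0 _, ?_⟩
        rw [Fin.sum_univ_succ] at h1
        have := h0 0
        show ∑ i : Fin d, x.1 i.succ ≤ 1
        linarith⟩
      invFun := fun y => ⟨Fin.cons (1 - ∑ i, y.1 i) (fun i => y.1 i), by
        refine ⟨fun v => ?_, univ, mem_singleton_self _, by simp, ?_⟩
        · refine Fin.cases ?_ (fun i => ?_) v
          · simpa using y.2.2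
          · simpa using y.2.1 i
        · rw [Fin.sum_univ_succ]; simp⟩
      left_inv := by
        rintro ⟨x, h0, F, hF, h2, h1⟩
        rw [mem_singleton] at hF
        subst hF
        apply Subtype.ext
        funext v
        refine Fin.cases ?_ (fun i => ?_) v
        · rw [Fin.sum_univ_succ] at h1
          simp only [Fin.cons_zero]
          linarith
        · simp
      right_inv := by
        rintro ⟨y, hy⟩
        apply Subtype.ext
        ext i
        simp
      continuous_toFun := by
        apply Continuous.subtype_mk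
        exact (PiLp.continuous_toLp 2 _).comp (continuous_pi fun i =>
          (continuous_apply i.succ).comp continuous_subtype_val)
      continuous_invFun := by
        apply Continuous.subtype_mk
        apply continuous_pi
        intro v
        refine Fin.cases ?_ (fun i => ?_) v
        · simp only [Fin.cons_zero]
          fun_prop
        · simp only [Fin.cons_succ]
          fun_prop }

theorem face_ball {d : ℕ} {F : Finset V} (hF : F.card = d + 1) :
    Nonempty (Helper175.NS.Sp ({F} : Finset (Finset V)) ≃ₜ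
      Metric.closedBall (0 : EuclideanSpace ℝ (Fin d)) 1) := by
  let f : Fin (d + 1) → V := fun i => ((F.equivFinOfCardEq hF).symm i : V)
  have hinj : Function.Injective f := fun i j h =>
    (F.equivFinOfCardEq hF).symm.injective (Subtype.ext h)
  have himg : (univ : Finset (Fin (d + 1))).image f = F := by
    apply eq_of_subset_of_card_le
    · intro x hx
      obtain ⟨i, _, rfl⟩ := mem_image.1 hx
      exact ((F.equivFinOfCardEq hF).symm i).2
    · rw [card_image_of_injective _ hinj, hF]; simp
  obtain ⟨e1⟩ := Helper175.NS.relabel_homeo ({univ} : Finset (Finset (Fin (d + 1)))) f univ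
    (fun _ _ => subset_univ _) hinj.injOn
  rw [image_singleton, himg] at e1
  obtain ⟨e2⟩ := simplex_ball d
  exact ⟨e1.trans e2⟩

end Pool.Agent.H200Z
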