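import Mathlib
import Pool.Agent.H200Z.Gen

set_option autoImplicit false

namespace Pool.Agent.H200Z

open Finset
open Helper175.NS (Sp star_homeo star_cases)

/-- the set with a given bit mask -/
def dec (n m : ℕ) : Finset (Fin n) := univ.filter (fun i => m.testBit i.val = true)

theorem mem_dec {n m : ℕ} {i : Fin n} : i ∈ dec n m ↔ m.testBit i.val = true := by
  simp [dec]

def decL (n : ℕ) (l : List ℕ) : Finset (Finset (Fin n)) := (l.map (dec n)).toFinset

theorem mem_decL {n : ℕ} {l : List ℕ} {A : Finset (Fin n)} :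
    A ∈ decL n l ↔ ∃ m ∈ l, dec n m = A := by
  rw [decL, List.mem_toFinset, List.mem_map]

theorem dec_mem_decL {n : ℕ} {l : List ℕ} {m : ℕ} (h : m ∈ l) : dec n m ∈ decL n l :=
  mem_decL.2 ⟨m, h, rfl⟩

def bits (n m : ℕ) : List ℕ := (List.range n).filter (fun i => m.testBit i)

theorem mem_bits {n m z : ℕ} : z ∈ bits n m ↔ z < n ∧ m.testBit z = true := by
  rw [bits, List.mem_filter, List.mem_range]

theorem val_mem_bits {n m : ℕ} {i : Fin n} : i.val ∈ bits n m ↔ i ∈ dec n m := by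
  rw [mem_bits, mem_dec]; exact ⟨fun h => h.2, fun h => ⟨i.2, h⟩⟩

/-- `ρ` is a submask of `m` -/
def subB (ρ m : ℕ) : Bool := Nat.beq (Nat.land m ρ) ρ

theorem subB_iff {ρ m : ℕ} : subB ρ m = true ↔ m &&& ρ = ρ := by
  rw [subB, Nat.beq_eq]; rfl

theorem sub_of_subB {n ρ m : ℕ} (h : subB ρ m = true) : dec n ρ ⊆ dec n m := by
  intro i hi
  rw [mem_dec] at hi ⊢
  have h1 := congrArg (fun k => Nat.testBit k i.val) (subB_iff.1 h)
  simp only [Nat.testBit_land, hi, Bool.and_true] at h1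
  exact h1

theorem subB_of_sub {n ρ m : ℕ} (hρ : ρ < 2 ^ n) (h : dec n ρ ⊆ dec n m) : subB ρ m = true := by
  rw [subB_iff]
  apply Nat.eq_of_testBit_eq
  intro i
  rw [Nat.testBit_land]
  rcases Nat.lt_or_ge i n with hi | hi
  · cases h1 : ρ.testBit i with
    | false => simp
    | true =>
      have h2 := h (mem_dec.2 (show ρ.testBit (⟨i, hi⟩ : Fin n).val = true from h1))
      rw [mem_dec] at h2
      simpa using h2
  · have h1 : ρ.testBit i = false := by
      apply Nat.testBit_eq_false_of_lt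
      exact lt_of_lt_of_le hρ (Nat.pow_le_pow_right (by norm_num) hi)
    simp [h1]

theorem not_sub_of_subB {n ρ m : ℕ} (hρ : ρ < 2 ^ n) (h : subB ρ m = false) :
    ¬ dec n ρ ⊆ dec n m := fun h' => by
  rw [subB_of_sub hρ h'] at h
  exact absurd h (by decide)

theorem dec_inj {n a b : ℕ} (ha : a < 2 ^ n) (hb : b < 2 ^ n) (h : dec n a = dec n b) : a = b := by
  have h1 := subB_iff.1 (subB_of_sub ha h.subset)
  have h2 := subB_iff.1 (subB_of_sub hb h.symm.subset)
  rw [← h1, Nat.land_comm, h2]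

theorem dec_nonempty {n ρ : ℕ} (hρ : ρ < 2 ^ n) (h0 : ρ ≠ 0) : (dec n ρ).Nonempty := by
  rw [nonempty_iff_ne_empty]
  intro h
  apply h0
  apply dec_inj hρ (Nat.two_pow_pos n)
  rw [h]
  ext i
  simp [mem_dec]

theorem dec_land (n a b : ℕ) : dec n (Nat.land a b) = dec n a ∩ dec n b := by
  ext i
  rw [mem_inter, mem_dec, mem_dec, mem_dec]
  show (a &&& b).testBit i = true ↔ _
  rw [Nat.testBit_land, Bool.and_eq_true]

theorem dec_lor (n a b : ℕ) : dec n (Nat.lor a b) = dec n a ∪ dec n b := by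
  ext i
  rw [mem_union, mem_dec, mem_dec, mem_dec]
  show (a ||| b).testBit i = true ↔ _
  rw [Nat.testBit_lor, Bool.or_eq_true]

theorem dec_pow {n : ℕ} (v : Fin n) : dec n (2 ^ v.val) = {v} := by
  ext i
  rw [mem_dec, Nat.testBit_two_pow, mem_singleton]
  simp [Fin.ext_iff, eq_comm]

theorem dec_ins {n : ℕ} (m : ℕ) (v : Fin n) :
    dec n (Nat.lor m (2 ^ v.val)) = insert v (dec n m) := by
  rw [dec_lor, dec_pow, union_comm, ← insert_eq]

theorem dec_xor {n m : ℕ} {z : Fin n} (hz : z ∈ dec n m) :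
    dec n (Nat.xor m (2 ^ z.val)) = (dec n m).erase z := by
  rw [mem_dec] at hz
  ext i
  rw [mem_erase, mem_dec, mem_dec]
  show (m ^^^ 2 ^ z.val).testBit i = true ↔ _
  rw [Nat.testBit_xor, Nat.testBit_two_pow]
  by_cases h : i = z
  · subst h; simp [hz]
  · have : z.val ≠ i.val := fun h' => h (Fin.ext h'.symm)
    simp [h, this]

def starB (n : ℕ) (l : List ℕ) (ρ v : ℕ) : List ℕ :=
  l.flatMap (fun m => if subB ρ m = true then
    (bits n ρ).map (fun z => Nat.lor (Nat.xor m (2 ^ z)) (2 ^ v)) else [m])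

theorem decL_starB {n : ℕ} (l : List ℕ) (ρ : ℕ) (hρ : ρ < 2 ^ n) (v : Fin n) :
    decL n (starB n l ρ v.val) = Helper175.NS.star (decL n l) (dec n ρ) v := by
  ext A
  rw [mem_decL]
  constructor
  · rintro ⟨m', hm', rfl⟩
    rw [starB, List.mem_flatMap] at hm'
    obtain ⟨m, hm, h1⟩ := hm'
    unfold Helper175.NS.star
    rw [mem_union, mem_filter, mem_biUnion]
    split_ifs at h1 with h2
    · rw [List.mem_map] at h1
      obtain ⟨z, hz, rfl⟩ := h1
      rw [mem_bits] at hz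
      have h3 : dec n ρ ⊆ dec n m := sub_of_subB h2
      have hz' : (⟨z, hz.1⟩ : Fin n) ∈ dec n ρ := mem_dec.2 hz.2
      right
      refine ⟨dec n m, mem_filter.2 ⟨dec_mem_decL hm, h3⟩, mem_image.2 ⟨_, hz', ?_⟩⟩
      rw [dec_ins, ← dec_xor (h3 hz')]
    · rw [List.mem_singleton] at h1
      subst h1
      left
      exact ⟨dec_mem_decL hm, fun h => h2 (subB_of_sub hρ h)⟩
  · intro hA
    rcases star_cases hA with ⟨h1, h2⟩ | ⟨F, h1, h2, z, hz, rfl⟩
    · obtain ⟨m, hm, rfl⟩ := mem_decL.1 h1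
      refine ⟨m, ?_, rfl⟩
      rw [starB, List.mem_flatMap]
      refine ⟨m, hm, ?_⟩
      rw [if_neg (fun h => h2 (sub_of_subB h))]
      exact List.mem_singleton_self _
    · obtain ⟨m, hm, rfl⟩ := mem_decL.1 h1
      refine ⟨Nat.lor (Nat.xor m (2 ^ z.val)) (2 ^ v.val), ?_, ?_⟩
      · rw [starB, List.mem_flatMap]
        refine ⟨m, hm, ?_⟩
        rw [if_pos (subB_of_sub hρ h2), List.mem_map]
        exact ⟨z.val, val_mem_bits.2 hz, rfl⟩
      · rw [dec_ins, dec_xor (h2 hz)]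

def memB (m : ℕ) (l : List ℕ) : Bool := l.any (fun k => Nat.beq m k)

theorem memB_iff {m : ℕ} {l : List ℕ} : memB m l = true ↔ m ∈ l := by
  rw [memB, List.any_eq_true]
  constructor
  · rintro ⟨k, hk, h⟩
    rw [Nat.beq_eq] at h
    exact h ▸ hk
  · intro h
    exact ⟨m, h, by simp⟩

def sameB (l l' : List ℕ) : Bool := l.all (fun m => memB m l') && l'.all (fun m => memB m l)

theorem decL_of_sameB {n : ℕ} {l l' : List ℕ} (h : sameB l l' = true) :
    decL n l = decL n l' := by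
  rw [sameB, Bool.and_eq_true, List.all_eq_true, List.all_eq_true] at h
  ext A
  rw [mem_decL, mem_decL]
  constructor
  · rintro ⟨m, hm, rfl⟩
    exact ⟨m, memB_iff.1 (h.1 m hm), rfl⟩
  · rintro ⟨m, hm, rfl⟩
    exact ⟨m, memB_iff.1 (h.2 m hm), rfl⟩

def dedupB : List ℕ → List ℕ
  | [] => []
  | a :: l => if memB a l = true then dedupB l else a :: dedupB l

/-- the stellar exchange -/
def exB (n : ℕ) (l : List ℕ) (ρ ρ' : ℕ) : List ℕ :=
  dedupB ((l.filter (fun m => subB ρ m)).flatMap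
    (fun m => (bits n ρ).map (fun z => Nat.lor (Nat.xor m (2 ^ z)) ρ'))) ++
    l.filter (fun m => !subB ρ m)

def okEx (n v : ℕ) (l l' : List ℕ) (ρ ρ' : ℕ) : Bool :=
  sameB (starB n l ρ v) (starB n l' ρ' v) && l'.all (fun m => !m.testBit v) &&
    Nat.blt ρ (2 ^ n) && Nat.blt ρ' (2 ^ n) && Nat.blt 0 ρ && Nat.blt 0 ρ' &&
    !ρ.testBit v && !ρ'.testBit v

def chainB (n v : ℕ) : List ℕ → List (ℕ × ℕ) → List ℕ → Bool
  | l, [], t => sameB l t
  | l, r :: ms, t => okEx n v l (exB n l r.1 r.2) r.1 r.2 && chainB n v (exB n l r.1 r.2) ms t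

theorem not_mem_of_all {n : ℕ} {v : Fin n} {l : List ℕ}
    (h : l.all (fun m => !m.testBit v.val) = true) : ∀ F ∈ decL n l, v ∉ F := by
  intro F hF hv
  obtain ⟨m, hm, rfl⟩ := mem_decL.1 hF
  have := List.all_eq_true.1 h m hm
  rw [mem_dec] at hv
  simp [hv] at this

theorem chain_homeo {n : ℕ} (v : Fin n) (ms : List (ℕ × ℕ)) :
    ∀ (l t : List ℕ), l.all (fun m => !m.testBit v.val) = true → chainB n v.val l ms t = true →
      Nonempty (Sp (decL n l) ≃ₜ Sp (decL n t)) := by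
  induction ms with
  | nil =>
    intro l t _ h
    rw [chainB] at h
    rw [decL_of_sameB h]
    exact ⟨Homeomorph.refl _⟩
  | cons r ms ih =>
    intro l t hl h
    rw [chainB, Bool.and_eq_true] at h
    obtain ⟨h1, h2⟩ := h
    simp only [okEx, Bool.and_eq_true, Nat.blt_eq] at h1
    obtain ⟨⟨⟨⟨⟨⟨⟨h3, h4⟩, h5⟩, h6⟩, h7⟩, h8⟩, h9⟩, h10⟩ := h1
    obtain ⟨e1⟩ := ih _ t h4 h2
    obtain ⟨e2⟩ := star_homeo (decL n l) (dec n r.1) v (dec_nonempty h5 h7.ne')
      (not_mem_of_all hl) (by rw [mem_dec]; simpa using h9)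
    obtain ⟨e3⟩ := star_homeo (decL n (exB n l r.1 r.2)) (dec n r.2) v (dec_nonempty h6 h8.ne')
      (not_mem_of_all h4) (by rw [mem_dec]; simpa using h10)
    rw [← decL_starB _ _ h5, decL_of_sameB h3] at e2
    rw [← decL_starB _ _ h6] at e3
    exact ⟨(e2.symm.trans e3).trans e1⟩

theorem isBall_of_chain {n d : ℕ} (v : Fin n) (ms : List (ℕ × ℕ)) (l : List ℕ) (t : ℕ)
    (hne : l ≠ []) (hl : l.all (fun m => !m.testBit v.val) = true)
    (h : chainB n v.val l ms [t] = true) (ht : (dec n t).card = d + 1) :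
    IsBall d (gen (decL n l)) := by
  refine ⟨isCx_gen ?_, ?_⟩
  · obtain ⟨m, hm⟩ := List.exists_mem_of_ne_nil l hne
    exact ⟨_, dec_mem_decL hm⟩
  · obtain ⟨e1⟩ := chain_homeo v ms l [t] hl h
    have : decL n [t] = {dec n t} := by simp [decL]
    rw [this] at e1
    obtain ⟨e2⟩ := face_ball ht
    rw [realization_gen]
    exact ⟨e1.trans e2⟩

/-! ### collapses -/

/-- collapsibility, in the form of the frozen statement -/
def Coll {n : ℕ} (K : Finset (Finset (Fin n))) : Prop :=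
  ∀ S : Finset (Finset (Fin n)) → Prop,
    (∀ v : Fin n, S {∅, {v}}) →
    (∀ L : Finset (Finset (Fin n)), ∀ σ ∈ L, ∀ τ ∈ L, σ ⊂ τ →
      τ.card = σ.card + 1 →
      (∀ ρ ∈ L, σ ⊆ ρ → ρ = σ ∨ ρ = τ) →
      S ((L.erase σ).erase τ) → S L) →
    S K

theorem coll_step {n : ℕ} {Φ Ψ : Finset (Finset (Fin n))} {τ : Finset (Fin n)} {a : Fin n}
    (hτ : τ ∈ Φ) (ha : a ∈ τ)
    (h1 : ∀ F ∈ Φ, F = τ ∨ (F ∈ Ψ ∧ ¬ τ.erase a ⊆ F))
    (h2 : ∀ b ∈ τ.erase a, ∃ G ∈ Ψ, τ.erase b ⊆ G)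
    (h3 : ∀ G ∈ Ψ, (G ∈ Φ ∧ ¬ τ.erase a ⊆ G) ∨ ∃ b ∈ τ.erase a, G = τ.erase b)
    (h : Coll (gen Ψ)) : Coll (gen Φ) := by
  intro S hS1 hS2
  have hbetween : ∀ ρ : Finset (Fin n), τ.erase a ⊆ ρ → ρ ⊆ τ → ρ = τ.erase a ∨ ρ = τ := by
    intro ρ h4 h5
    by_cases haρ : a ∈ ρ
    · right
      refine Subset.antisymm h5 (fun x hx => ?_)
      by_cases hxa : x = a
      · exact hxa ▸ haρ
      · exact h4 (mem_erase.2 ⟨hxa, hx⟩)
    · left
      exact Subset.antisymm (fun x hx => mem_erase.2 ⟨fun h => haρ (h ▸ hx), h5 hx⟩) h4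
  refine hS2 (gen Φ) (τ.erase a) (mem_gen.2 ⟨τ, hτ, erase_subset _ _⟩) τ
    (mem_gen.2 ⟨τ, hτ, Subset.refl _⟩) (erase_ssubset ha) (card_erase_add_one ha).symm ?_ ?_
  · intro ρ hρ hs
    obtain ⟨F, hF, hρF⟩ := mem_gen.1 hρ
    rcases h1 F hF with rfl | ⟨_, h4⟩
    · exact hbetween ρ hs hρF
    · exact absurd (hs.trans hρF) h4
  · have : ((gen Φ).erase (τ.erase a)).erase τ = gen Ψ := by
      ext ρ
      rw [mem_erase, mem_erase, mem_gen, mem_gen]
      constructor
      · rintro ⟨h4, h5, F, hF, hρF⟩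
        rcases h1 F hF with rfl | ⟨h6, _⟩
        · have : ¬ F.erase a ⊆ ρ := fun h7 => by
            rcases hbetween ρ h7 hρF with h8 | h8
            · exact h5 h8
            · exact h4 h8
          obtain ⟨b, hb, hbρ⟩ := not_subset.1 this
          obtain ⟨G, hG, h7⟩ := h2 b hb
          exact ⟨G, hG, fun x hx => h7 (mem_erase.2 ⟨fun h => hbρ (h ▸ hx), hρF hx⟩)⟩
        · exact ⟨F, h6, hρF⟩
      · rintro ⟨G, hG, hρG⟩
        rcases h3 G hG with ⟨h4, h5⟩ | ⟨b, hb, rfl⟩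
        · refine ⟨?_, ?_, G, h4, hρG⟩
          · rintro rfl
            exact h5 ((erase_subset _ _).trans hρG)
          · rintro rfl
            exact h5 hρG
        · refine ⟨?_, ?_, τ, hτ, hρG.trans (erase_subset _ _)⟩
          · rintro rfl
            exact (notMem_erase b ρ) (hρG (mem_of_mem_erase hb))
          · rintro rfl
            exact (notMem_erase b τ) (hρG hb)
    rw [this]
    exact h S hS1 hS2

def colB (n : ℕ) (l : List ℕ) (τ a : ℕ) : List ℕ :=
  ((bits n (Nat.xor τ (2 ^ a))).map (fun b => Nat.xor τ (2 ^ b))).filter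
    (fun x => !(l.filter (fun m => !Nat.beq m τ)).any (fun m => subB x m)) ++
    l.filter (fun m => !Nat.beq m τ)

def okCol (n : ℕ) (l : List ℕ) (τ a : ℕ) : Bool :=
  memB τ l && Nat.blt a n && τ.testBit a && Nat.blt (Nat.xor τ (2 ^ a)) (2 ^ n) &&
    (l.filter (fun m => !Nat.beq m τ)).all (fun m => !subB (Nat.xor τ (2 ^ a)) m)

def colChain (n v : ℕ) : List ℕ → List (ℕ × ℕ) → Bool
  | l, [] => sameB l [2 ^ v]
  | l, r :: ms => okCol n l r.1 r.2 && colChain n v (colB n l r.1 r.2) ms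

theorem coll_of_chain {n : ℕ} (v : Fin n) (ms : List (ℕ × ℕ)) :
    ∀ l : List ℕ, colChain n v.val l ms = true → Coll (gen (decL n l)) := by
  induction ms with
  | nil =>
    intro l h S hS1 _
    rw [colChain] at h
    rw [decL_of_sameB h]
    have : gen (decL n [2 ^ v.val]) = {∅, {v}} := by
      ext σ
      rw [mem_gen]
      simp [decL, dec_pow, subset_singleton_iff]
    rw [this]
    exact hS1 v
  | cons r ms ih =>
    intro l h
    rw [colChain, Bool.and_eq_true] at h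
    obtain ⟨h1, h2⟩ := h
    simp only [okCol, Bool.and_eq_true, Nat.blt_eq, List.all_eq_true, memB_iff] at h1
    obtain ⟨⟨⟨⟨h3, h4⟩, h5⟩, h6⟩, h7⟩ := h1
    have ha : (⟨r.2, h4⟩ : Fin n) ∈ dec n r.1 := mem_dec.2 h5
    have hx : dec n (Nat.xor r.1 (2 ^ r.2)) = (dec n r.1).erase ⟨r.2, h4⟩ := dec_xor ha
    have hR : ∀ m ∈ l.filter (fun m => !Nat.beq m r.1),
        ¬ (dec n r.1).erase ⟨r.2, h4⟩ ⊆ dec n m := by
      intro m hm
      rw [← hx]
      exact not_sub_of_subB h6 (by simpa using h7 m hm)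
    refine coll_step (dec_mem_decL h3) ha ?_ ?_ ?_ (ih _ h2)
    · intro F hF
      obtain ⟨m, hm, rfl⟩ := mem_decL.1 hF
      by_cases hmr : m = r.1
      · left; rw [hmr]
      · have hm' : m ∈ l.filter (fun m => !Nat.beq m r.1) := by
          rw [List.mem_filter]
          refine ⟨hm, ?_⟩
          cases h : Nat.beq m r.1 with
          | false => rfl
          | true => exact absurd (Nat.eq_of_beq_eq_true h) hmr
        exact Or.inr ⟨dec_mem_decL (List.mem_append_right _ hm'), hR m hm'⟩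
    · intro b hb
      have hb' : dec n (Nat.xor r.1 (2 ^ b.val)) = (dec n r.1).erase b :=
        dec_xor (mem_of_mem_erase hb)
      by_cases hc : (l.filter (fun m => !Nat.beq m r.1)).any
          (fun m => subB (Nat.xor r.1 (2 ^ b.val)) m) = true
      · obtain ⟨m, hm, h8⟩ := List.any_eq_true.1 hc
        exact ⟨_, dec_mem_decL (List.mem_append_right _ hm), hb' ▸ sub_of_subB h8⟩
      · refine ⟨_, dec_mem_decL (List.mem_append_left _ (List.mem_filter.2 ⟨List.mem_map.2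
          ⟨b.val, val_mem_bits.2 (hx ▸ hb), rfl⟩, ?_⟩)), hb'.symm.subset⟩
        simpa using hc
    · intro G hG
      obtain ⟨m, hm, rfl⟩ := mem_decL.1 hG
      rcases List.mem_append.1 hm with hm | hm
      · obtain ⟨b, hb, rfl⟩ := List.mem_map.1 (List.mem_filter.1 hm).1
        have hb1 := mem_bits.1 hb
        have hb2 : (⟨b, hb1.1⟩ : Fin n) ∈ (dec n r.1).erase ⟨r.2, h4⟩ := by
          rw [← hx]; exact mem_dec.2 hb1.2
        exact Or.inr ⟨_, hb2, dec_xor (mem_of_mem_erase hb2)⟩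
      · exact Or.inl ⟨dec_mem_decL (List.mem_filter.1 hm).1, hR m hm⟩

end Pool.Agent.H200Z
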