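import Mathlib
import Pool.Agent.H200Z.Mask

set_option autoImplicit false

namespace Pool.Agent.H200Z

open Finset

section abstract

variable {V : Type} [DecidableEq V] {X : Type}

/-- parallel transport along a path -/
def transport (c : V → V → X → X) : V → List V → X → X
  | _, [], x => x
  | u, w :: p, x => c u w (transport c w p x)

def lastV : V → List V → V
  | u, [] => u
  | _, w :: p => lastV w p

def PathOK (R : V → V → Prop) : V → List V → Prop
  | _, [] => True
  | u, w :: p => R u w ∧ PathOK R w p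

omit [DecidableEq V] in
theorem transport_eq (c : V → V → X → X) (R : V → V → Prop) (s : V → X)
    (hs : ∀ u w, R u w → s u = c u w (s w)) (p : List V) :
    ∀ u, PathOK R u p → s u = transport c u p (s (lastV u p)) := by
  induction p with
  | nil => intro u _; rfl
  | cons w p ih =>
    intro u h
    rw [transport, lastV, ← ih w h.2]
    exact hs u w h.1

theorem not_nonEvasive_of_conn (c : V → V → X → X) (hid : ∀ u x, c u u x = x)
    (Φ : Finset (Finset V)) (Z : Finset V)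
    (hZ : ∀ a ∈ Z, ∀ b ∈ Z, ∃ F ∈ Φ, a ∈ F ∧ b ∈ F) (hne : Z.Nonempty)
    (hflat : ∀ F ∈ Φ, ∀ u ∈ F, ∀ w ∈ F, ∀ t ∈ F, u ∉ Z → w ∉ Z → t ∉ Z →
      ∀ x, c u w (c w t x) = c u t x)
    (s : V → V → X)
    (hs : ∀ F ∈ Φ, ∀ z ∈ F, z ∈ Z → ∀ u ∈ F, ∀ w ∈ F, u ∉ Z → w ∉ Z → s z u = c u w (s z w))
    (hs2 : ∀ F ∈ Φ, ∀ z ∈ F, z ∈ Z → ∀ z' ∈ F, z' ∈ Z → ∀ u ∈ F, u ∉ Z → s z u = s z' u)
    (z0 z1 u0 : V) (p : List V)
    (hp : PathOK (fun u w => u ∉ Z ∧ w ∉ Z ∧ ∃ F, F ∈ Φ ∧ u ∈ F ∧ w ∈ F) u0 p)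
    (h0 : z0 ∈ Z ∧ u0 ∉ Z ∧ ∃ F ∈ Φ, z0 ∈ F ∧ u0 ∈ F)
    (h1 : z1 ∈ Z ∧ lastV u0 p ∉ Z ∧ ∃ F ∈ Φ, z1 ∈ F ∧ lastV u0 p ∈ F)
    (hmis : s z0 u0 ≠ transport c u0 p (s z1 (lastV u0 p))) : ¬ NonEvasive (gen Φ) := by
  intro h
  obtain ⟨s', h2, h3⟩ := h.ext c hid (down_gen Φ) Z (by
      intro a ha b hb
      obtain ⟨F, hF, h4, h5⟩ := hZ a ha b hb
      exact mem_gen.2 ⟨F, hF, insert_subset h4 (singleton_subset_iff.2 h5)⟩) hne (by
      intro u w t hu hw ht hm
      obtain ⟨F, hF, hs⟩ := mem_gen.1 hm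
      exact hflat F hF u (hs (by simp)) w (hs (by simp)) t (hs (by simp)) hu hw ht) s (by
      intro z hz u w hu hw hm
      obtain ⟨F, hF, hs'⟩ := mem_gen.1 hm
      exact hs F hF z (hs' (by simp)) hz u (hs' (by simp)) w (hs' (by simp)) hu hw) (by
      intro z hz z' hz' u hu hm
      obtain ⟨F, hF, hs'⟩ := mem_gen.1 hm
      exact hs2 F hF z (hs' (by simp)) hz z' (hs' (by simp)) hz' u (hs' (by simp)) hu)
  have hfr : ∀ z u, (z ∈ Z ∧ u ∉ Z ∧ ∃ F ∈ Φ, z ∈ F ∧ u ∈ F) → s' u = s z u := by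
    rintro z u ⟨hz, hu, F, hF, hzF, huF⟩
    refine h2 z hz u hu (mem_gen.2 ⟨F, hF, ?_⟩)
    intro x hx
    simp only [mem_insert, mem_singleton] at hx
    rcases hx with rfl | rfl <;> assumption
  apply hmis
  rw [← hfr _ _ h0, ← hfr _ _ h1]
  refine transport_eq c _ s' ?_ p u0 hp
  rintro u w ⟨hu, hw, F, hF, huF, hwF⟩
  refine h3 u w hu hw (mem_gen.2 ⟨F, hF, ?_⟩)
  intro x hx
  simp only [mem_insert, mem_singleton] at hx
  rcases hx with rfl | rfl <;> assumption

theorem glued_cons {G : List (Finset V × Finset V)} {A B P Q : Finset V} :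
    Glued ((A, B) :: G) P Q ↔ (P = A ∧ Q = B) ∨ (Q = A ∧ P = B) ∨ Glued G P Q := by
  simp only [Glued, List.mem_cons, Prod.mk.injEq]
  tauto

omit [DecidableEq V] in
theorem Glued.symm {G : List (Finset V × Finset V)} {A B : Finset V} (h : Glued G A B) :
    Glued G B A := Or.symm h

/-- a family of flat sections on the simplices, compatible with the gluings -/
def Compat (c : V → V → X → X) (E : Finset V) (P : List (Finset V))
    (G : List (Finset V × Finset V)) (s : Finset V → V → X) : Prop :=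
  (∀ F ∈ P, ∀ u ∈ F, ∀ w ∈ F, u ∉ E → w ∉ E → s F u = c u w (s F w)) ∧
    ∀ A B, Glued G A B → ∀ u ∈ A, u ∈ B → u ∉ E → s A u = s B u

theorem not_isLC_of_conn (c : V → V → X → X) (hid : ∀ u x, c u u x = x) (d : ℕ)
    (K : Finset (Finset V)) (E : Finset V) (hE : E.card + 1 = d) (hEne : E.Nonempty)
    (hflat : ∀ F, IsFacet K F → ∀ u ∈ F, ∀ w ∈ F, ∀ t ∈ F, u ∉ E → w ∉ E → t ∉ E →
      ∀ x, c u w (c w t x) = c u t x)
    (s0 : V → X)
    (hs0 : ∀ F, IsFacet K F → E ⊆ F → ∀ u ∈ F, ∀ w ∈ F, u ∉ E → w ∉ E → s0 u = c u w (s0 w))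
    (h3 : ∀ A B C H, IsFacet K A → IsFacet K B → IsFacet K C → IsFacet K H → E ⊆ A → E ⊆ B →
      E ⊆ C → E ⊆ H → A ≠ B → C ≠ A → C ≠ B → H = A ∨ H = B ∨ H = C)
    (u0 : V) (p : List V)
    (hp : PathOK (fun u w => u ∉ E ∧ w ∉ E ∧ ∃ F, IsFacet K F ∧ u ∈ F ∧ w ∈ F) u0 p)
    (h0 : u0 ∉ E ∧ ∃ F, IsFacet K F ∧ u0 ∈ F ∧ E ⊆ F)
    (h1 : lastV u0 p ∉ E ∧ ∃ F, IsFacet K F ∧ lastV u0 p ∈ F ∧ E ⊆ F)
    (hmis : s0 u0 ≠ transport c u0 p (s0 (lastV u0 p))) : ¬ IsLC d K := by
  classical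
  rintro ⟨hpure, P, G, hst, hall, hfin⟩
  have hout : ∀ r : Finset V, r.card = d → ∃ u ∈ r, u ∉ E := by
    intro r hr
    by_contra hcon
    push Not at hcon
    have := card_le_card (show r ⊆ E from hcon)
    omega
  have hchain : ∀ (G : List (Finset V × Finset V)) (P : List (Finset V)) (s : Finset V → V → X),
      Compat c E P G s → ∀ (σ A B : Finset V), SameCell G σ A B → ∀ u ∈ σ, u ∉ E →
      s A u = s B u := by
    intro G P s hs σ A B h u hu huE
    induction h with
    | refl => rfl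
    | tail _ h ih => rw [ih]; exact hs.2 _ _ h.1 u (h.2.1 hu) (h.2.2 hu) huE
  have hagree : ∀ (G : List (Finset V × Finset V)) (P : List (Finset V)) (s : Finset V → V → X),
      Compat c E P G s → ∀ F ∈ P, IsFacet K F → E ⊆ F → ∀ u1 ∈ F, u1 ∉ E → s F u1 = s0 u1 →
      ∀ u ∈ F, u ∉ E → s F u = s0 u := by
    intro G P s hs F hF hF' hEF u1 hu1 hu1E h u hu huE
    rw [hs.1 F hF u hu u1 hu1 huE hu1E, h, ← hs0 F hF' hEF u hu u1 hu1 huE hu1E]
  have hagree2 : ∀ (G : List (Finset V × Finset V)) (P : List (Finset V))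
      (s : Finset V → V → X), Compat c E P G s → (∀ F ∈ P, IsFacet K F) →
      (∀ A B, Glued G A B → A ∈ P ∧ B ∈ P ∧ (A ∩ B).card = d) →
      ∀ A B, SameCell G E A B → (∀ u ∈ A, u ∉ E → s A u = s0 u) →
      ∀ u ∈ B, u ∉ E → s B u = s0 u := by
    intro G P s hs hP hG A B h hA
    induction h with
    | refl => exact hA
    | tail _ h ih =>
      obtain ⟨h4, h5, h6⟩ := hG _ _ h.1
      obtain ⟨u1, hu1, hu1E⟩ := hout _ h6
      rw [mem_inter] at hu1
      refine hagree G P s hs _ h5 (hP _ h5) h.2.2 u1 hu1.2 hu1E ?_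
      rw [← hs.2 _ _ h.1 u1 hu1.1 hu1.2 hu1E]
      exact ih u1 hu1.1 hu1E
  have hinv : ∀ P G, LCStage d K P G → (∀ F ∈ P, IsFacet K F) ∧
      (∀ A B, Glued G A B → A ∈ P ∧ B ∈ P ∧ (A ∩ B).card = d) ∧
      ((∀ F0 ∈ P, ∀ u ∈ F0, u ∉ E → ∀ x, ∃ s, Compat c E P G s ∧ s F0 u = x) ∨
        ∃ s, Compat c E P G s ∧ ∀ H, IsFacet K H → E ⊆ H → H ∈ P ∧
          ∀ u ∈ H, u ∉ E → s H u = s0 u) := by
    intro P G h
    induction h with
    | start A hA =>
      refine ⟨fun F hF => by rw [List.mem_singleton.1 hF]; exact hA,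
        fun _ _ h => by simp [Glued] at h, Or.inl ?_⟩
      intro F0 hF0 u hu huE x
      rw [List.mem_singleton] at hF0
      subst hF0
      refine ⟨fun _ w => c w u x, ⟨?_, fun _ _ h => by simp [Glued] at h⟩, hid u x⟩
      intro F hF a ha b hb haE hbE
      rw [List.mem_singleton] at hF
      subst hF
      exact (hflat F hA a ha b hb u hu haE hbE huE x).symm
    | attach P G A B _ hA hB hBP hcard _ ih =>
      obtain ⟨i1, i2, i3⟩ := ih
      obtain ⟨u1, hu1, hu1E⟩ := hout _ hcard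
      rw [mem_inter] at hu1
      have hne : ∀ F ∈ P, F ≠ B := fun F hF h => hBP (h ▸ hF)
      have hext : ∀ s, Compat c E P G s →
          Compat c E (B :: P) ((A, B) :: G) (Function.update s B (fun u => c u u1 (s A u1))) := by
        intro s hs
        have hAB : ∀ u ∈ A, u ∉ E → Function.update s B (fun u => c u u1 (s A u1)) A u =
            Function.update s B (fun u => c u u1 (s A u1)) B u := by
          intro u hu huE
          rw [Function.update_self, Function.update_of_ne (hne A hA)]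
          exact hs.1 A hA u hu u1 hu1.1 huE hu1E
        constructor
        · intro F hF u hu w hw huE hwE
          rcases List.mem_cons.1 hF with rfl | hF
          · rw [Function.update_self]
            exact (hflat F hB u hu w hw u1 hu1.2 huE hwE hu1E _).symm
          · rw [Function.update_of_ne (hne F hF)]
            exact hs.1 F hF u hu w hw huE hwE
        · intro Q R hQR u hu hu' huE
          rcases glued_cons.1 hQR with ⟨rfl, rfl⟩ | ⟨rfl, rfl⟩ | h
          · exact hAB u hu huE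
          · exact (hAB u hu' huE).symm
          · rw [Function.update_of_ne (hne Q (i2 Q R h).1),
              Function.update_of_ne (hne R (i2 Q R h).2.1)]
            exact hs.2 Q R h u hu hu' huE
      refine ⟨?_, ?_, ?_⟩
      · intro F hF
        rcases List.mem_cons.1 hF with rfl | hF
        · exact hB
        · exact i1 F hF
      · intro Q R hQR
        rcases glued_cons.1 hQR with ⟨rfl, rfl⟩ | ⟨rfl, rfl⟩ | h
        · exact ⟨List.mem_cons_of_mem _ hA, List.mem_cons_self, hcard⟩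
        · exact ⟨List.mem_cons_self, List.mem_cons_of_mem _ hA, by rw [inter_comm]; exact hcard⟩
        · exact ⟨List.mem_cons_of_mem _ (i2 Q R h).1, List.mem_cons_of_mem _ (i2 Q R h).2.1,
            (i2 Q R h).2.2⟩
      · rcases i3 with i3 | ⟨s, hs, i3⟩
        · left
          intro F0 hF0 u hu huE x
          rcases List.mem_cons.1 hF0 with rfl | hF0
          · obtain ⟨s, hs, h⟩ := i3 A hA u1 hu1.1 hu1E (c u1 u x)
            refine ⟨_, hext s hs, ?_⟩
            rw [Function.update_self, h, hflat F0 hB u hu u1 hu1.2 u hu huE hu1E huE, hid]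
          · obtain ⟨s, hs, h⟩ := i3 F0 hF0 u hu huE x
            refine ⟨_, hext s hs, ?_⟩
            rw [Function.update_of_ne (hne F0 hF0), h]
        · right
          refine ⟨_, hext s hs, fun H hH hEH => ⟨List.mem_cons_of_mem _ (i3 H hH hEH).1, ?_⟩⟩
          rw [Function.update_of_ne (hne H (i3 H hH hEH).1)]
          exact (i3 H hH hEH).2
    | glue P G A B e _ hA hB hcard hung _ he hecard hsame ih =>
      obtain ⟨i1, i2, i3⟩ := ih
      have hext : ∀ s, Compat c E P G s → (∀ u ∈ A, u ∈ B → u ∉ E → s A u = s B u) →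
          Compat c E P ((A, B) :: G) s := by
        intro s hs h
        refine ⟨hs.1, fun Q R hQR u hu hu' huE => ?_⟩
        rcases glued_cons.1 hQR with ⟨rfl, rfl⟩ | ⟨rfl, rfl⟩ | h'
        · exact h u hu hu' huE
        · exact (h u hu' hu huE).symm
        · exact hs.2 Q R h' u hu hu' huE
      refine ⟨i1, ?_, ?_⟩
      · intro Q R hQR
        rcases glued_cons.1 hQR with ⟨rfl, rfl⟩ | ⟨rfl, rfl⟩ | h
        · exact ⟨hA, hB, hcard⟩
        · exact ⟨hB, hA, by rw [inter_comm]; exact hcard⟩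
        · exact i2 Q R h
      by_cases heE : e = E
      · subst heE
        right
        have heA : e ⊆ A := he.trans inter_subset_left
        have heB : e ⊆ B := he.trans inter_subset_right
        rcases i3 with i3 | ⟨s, hs, i3⟩
        · obtain ⟨u1, hu1, hu1E⟩ := hout _ hcard
          rw [mem_inter] at hu1
          obtain ⟨s, hs, h⟩ := i3 A hA u1 hu1.1 hu1E (s0 u1)
          have hAa := hagree G P s hs A hA (i1 A hA) heA u1 hu1.1 hu1E h
          have hBa := hagree2 G P s hs i1 i2 A B hsame hAa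
          have hAB : A ≠ B := by
            rintro rfl
            rw [inter_self, hpure A (i1 A hA)] at hcard
            omega
          rcases Relation.ReflTransGen.cases_head hsame with h4 | ⟨C, h4, _⟩
          · exact absurd h4 hAB
          have hC := i2 A C h4.1
          have hCa := hagree2 G P s hs i1 i2 A C (Relation.ReflTransGen.single h4) hAa
          have hCA : C ≠ A := by
            rintro rfl
            have := hC.2.2
            rw [inter_self, hpure C (i1 C hA)] at this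
            omega
          have hCB : C ≠ B := by
            rintro rfl
            exact hung C h4.1 rfl
          refine ⟨s, hext s hs (fun u hu hu' huE => by rw [hAa u hu huE, hBa u hu' huE]),
            fun H hH hEH => ?_⟩
          rcases h3 A B C H (i1 A hA) (i1 B hB) (i1 C hC.2.1) hH heA heB h4.2.2 hEH hAB hCA hCB
            with rfl | rfl | rfl
          · exact ⟨hA, hAa⟩
          · exact ⟨hB, hBa⟩
          · exact ⟨hC.2.1, hCa⟩
        · exact ⟨s, hext s hs (fun u hu hu' huE => by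
            rw [(i3 A (i1 A hA) heA).2 u hu huE, (i3 B (i1 B hB) heB).2 u hu' huE]), i3⟩
      · have hns : ¬ e ⊆ E := fun h => heE (eq_of_subset_of_card_le h (by omega))
        obtain ⟨u1, hu1, hu1E⟩ := not_subset.1 hns
        have hu1' := mem_inter.1 (he hu1)
        have hext' : ∀ s, Compat c E P G s → Compat c E P ((A, B) :: G) s := by
          intro s hs
          refine hext s hs (fun u hu hu' huE => ?_)
          rw [hs.1 A hA u hu u1 hu1'.1 huE hu1E, hs.1 B hB u hu' u1 hu1'.2 huE hu1E,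
            hchain G P s hs e A B hsame u1 hu1 hu1E]
        rcases i3 with i3 | ⟨s, hs, i3⟩
        · left
          intro F0 hF0 u hu huE x
          obtain ⟨s, hs, h⟩ := i3 F0 hF0 u hu huE x
          exact ⟨s, hext' s hs, h⟩
        · exact Or.inr ⟨s, hext' s hs, i3⟩
  obtain ⟨i1, i2, i3⟩ := hinv P G hst
  have hs : ∃ s, Compat c E P G s ∧ ∀ H, IsFacet K H → E ⊆ H →
      ∀ u ∈ H, u ∉ E → s H u = s0 u := by
    rcases i3 with i3 | ⟨s, hs, i3⟩
    · obtain ⟨hu0, F, hF, huF, hEF⟩ := h0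
      obtain ⟨s, hs, h⟩ := i3 F (hall F hF) u0 huF hu0 (s0 u0)
      refine ⟨s, hs, fun H hH hEH => ?_⟩
      exact hagree2 G P s hs i1 i2 F H (hfin E hEne F (hall F hF) H (hall H hH) hEF hEH)
        (hagree G P s hs F (hall F hF) hF hEF u0 huF hu0 h)
    · exact ⟨s, hs, fun H hH hEH => (i3 H hH hEH).2⟩
  obtain ⟨s, hs, hs'⟩ := hs
  let s' : V → X := fun u => if h : ∃ F, IsFacet K F ∧ u ∈ F then s h.choose u else s0 u
  have hs'' : ∀ F, IsFacet K F → ∀ u ∈ F, u ∉ E → s' u = s F u := by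
    intro F hF u hu huE
    have h : ∃ F, IsFacet K F ∧ u ∈ F := ⟨F, hF, hu⟩
    show (if h : ∃ F, IsFacet K F ∧ u ∈ F then s h.choose u else s0 u) = s F u
    rw [dif_pos h]
    exact hchain G P s hs {u} _ _ (hfin {u} (by simp) _ (hall _ h.choose_spec.1) F (hall F hF)
      (by simpa using h.choose_spec.2) (by simpa using hu)) u (by simp) huE
  have hfr : ∀ u, (u ∉ E ∧ ∃ F, IsFacet K F ∧ u ∈ F ∧ E ⊆ F) → s' u = s0 u := by
    rintro u ⟨hu, F, hF, huF, hEF⟩
    rw [hs'' F hF u huF hu, hs' F hF hEF u huF hu]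
  apply hmis
  rw [← hfr _ h0, ← hfr _ h1]
  refine transport_eq c _ s' ?_ p u0 hp
  rintro u w ⟨hu, hw, F, hF, huF, hwF⟩
  rw [hs'' F hF u huF hu, hs'' F hF w hwF hw]
  exact hs.1 F (hall F hF) u huF w hwF hu hw

theorem mem_of_isFacet {Φ : Finset (Finset V)} {F : Finset V} (h : IsFacet (gen Φ) F) : F ∈ Φ := by
  obtain ⟨G, hG, hFG⟩ := mem_gen.1 h.1
  rw [← h.2 G (mem_gen.2 ⟨G, hG, Subset.refl _⟩) hFG]
  exact hG

theorem isFacet_of_mem {Φ : Finset (Finset V)} {k : ℕ} (hΦ : ∀ F ∈ Φ, F.card = k) {F : Finset V}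
    (h : F ∈ Φ) : IsFacet (gen Φ) F := by
  refine ⟨mem_gen.2 ⟨F, h, Subset.refl _⟩, fun σ hσ hF => ?_⟩
  obtain ⟨G, hG, hσG⟩ := mem_gen.1 hσ
  refine (eq_of_subset_of_card_le hF ?_).symm
  rw [hΦ F h, ← hΦ G hG]
  exact card_le_card hσG

end abstract

end Pool.Agent.H200Z
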