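import Mathlib
import Pool.Agent.H200Z.Knot

set_option autoImplicit false

namespace Pool.Agent.H200Z

open Finset

def cN (n tbl u w : ℕ) (x : Fin 3) : Fin 3 :=
  if Nat.beq u w = true then x else Fin.ofNat 3 ((tbl >>> (2 * (3 * (n * u + w) + x.val))) % 4)

def cF (n tbl : ℕ) (u w : Fin n) (x : Fin 3) : Fin 3 := cN n tbl u.val w.val x

def sN (sv u : ℕ) : Fin 3 := Fin.ofNat 3 ((sv >>> (2 * u)) % 4)

def sF (n sv : ℕ) (u : Fin n) : Fin 3 := sN sv u.val

theorem cF_self (n tbl : ℕ) (u : Fin n) (x : Fin 3) : cF n tbl u u x = x := by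
  simp [cF, cN]

def outB (n Z F : ℕ) : List ℕ := (bits n F).filter (fun i => !Z.testBit i)

theorem mem_outB {n Z F : ℕ} {u : Fin n} (h1 : u ∈ dec n F) (h2 : u ∉ dec n Z) :
    u.val ∈ outB n Z F := by
  rw [outB, List.mem_filter]
  rw [mem_dec] at h2
  exact ⟨val_mem_bits.2 h1, by simpa using h2⟩

def flat3 (n tbl : ℕ) (b : List ℕ) : Bool :=
  b.all fun u => b.all fun w => b.all fun t => ([0, 1, 2] : List (Fin 3)).all fun x =>
    decide (cN n tbl u w (cN n tbl w t x) = cN n tbl u t x)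

def flatB (n : ℕ) (l : List ℕ) (Z tbl : ℕ) : Bool := l.all fun F => flat3 n tbl (outB n Z F)

theorem flat_of_flatB {n : ℕ} {l : List ℕ} {Z tbl : ℕ} (h : flatB n l Z tbl = true) :
    ∀ F ∈ decL n l, ∀ u ∈ F, ∀ w ∈ F, ∀ t ∈ F, u ∉ dec n Z → w ∉ dec n Z → t ∉ dec n Z →
      ∀ x, cF n tbl u w (cF n tbl w t x) = cF n tbl u t x := by
  intro F hF u hu w hw t ht huZ hwZ htZ x
  obtain ⟨m, hm, rfl⟩ := mem_decL.1 hF
  simp only [flatB, flat3, List.all_eq_true, decide_eq_true_eq] at h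
  exact h m hm _ (mem_outB hu huZ) _ (mem_outB hw hwZ) _ (mem_outB ht htZ) x
    (by fin_cases x <;> simp)

def sec2 (n tbl sv : ℕ) (b : List ℕ) : Bool :=
  b.all fun u => b.all fun w => decide (sN sv u = cN n tbl u w (sN sv w))

def secB (n : ℕ) (l : List ℕ) (Z tbl sv : ℕ) : Bool := l.all fun F => sec2 n tbl sv (outB n Z F)

theorem sec_of_secB {n : ℕ} {l : List ℕ} {Z tbl sv : ℕ} (h : secB n l Z tbl sv = true) :
    ∀ m ∈ l, ∀ u ∈ dec n m, ∀ w ∈ dec n m, u ∉ dec n Z → w ∉ dec n Z →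
      sF n sv u = cF n tbl u w (sF n sv w) := by
  intro m hm u hu w hw huZ hwZ
  simp only [secB, sec2, List.all_eq_true, decide_eq_true_eq] at h
  exact h m hm _ (mem_outB hu huZ) _ (mem_outB hw hwZ)

def pathB {n : ℕ} (l : List ℕ) (Z : ℕ) : Fin n → List (Fin n) → Bool
  | _, [] => true
  | u, w :: p => !Z.testBit u.val && !Z.testBit w.val &&
      l.any (fun F => F.testBit u.val && F.testBit w.val) && pathB l Z w p

theorem pathOK_of_pathB {n : ℕ} {l : List ℕ} {Z : ℕ} (R : Finset (Fin n) → Prop)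
    (hR : ∀ m ∈ l, R (dec n m)) (p : List (Fin n)) : ∀ u : Fin n, pathB l Z u p = true →
    PathOK (fun u w => u ∉ dec n Z ∧ w ∉ dec n Z ∧ ∃ F, R F ∧ u ∈ F ∧ w ∈ F) u p := by
  induction p with
  | nil => intro u _; trivial
  | cons w p ih =>
    intro u h
    simp only [pathB, Bool.and_eq_true, List.any_eq_true] at h
    obtain ⟨⟨⟨h1, h2⟩, m, hm, h3, h4⟩, h5⟩ := h
    refine ⟨⟨?_, ?_, dec n m, hR m hm, mem_dec.2 h3, mem_dec.2 h4⟩, ih w h5⟩
    · rw [mem_dec]; simpa using h1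
    · rw [mem_dec]; simpa using h2

def frB (l : List ℕ) (Z u : ℕ) : Bool := !Z.testBit u && l.any (fun F => F.testBit u)

/-- the table of the section attached to the vertex `z` -/
def svz (n sv z : ℕ) : ℕ := sv >>> (2 * (n * z))

def famB (n : ℕ) (l : List ℕ) (Z tbl sv : ℕ) : Bool :=
  l.all fun F => (bits n (Nat.land F Z)).all fun z => sec2 n tbl (svz n sv z) (outB n Z F) &&
    (bits n (Nat.land F Z)).all fun z' => (outB n Z F).all fun u =>
      decide (sN (svz n sv z) u = sN (svz n sv z') u)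

def adjB (l : List ℕ) (Z z u : ℕ) : Bool :=
  Z.testBit z && !Z.testBit u && l.any (fun F => F.testBit z && F.testBit u)

def neCert (n : ℕ) (l : List ℕ) (Z tbl sv : ℕ) (z0 z1 u0 : Fin n) (p : List (Fin n)) : Bool :=
  Nat.blt 0 Z && Nat.blt Z (2 ^ n) &&
    ((bits n Z).all fun a => (bits n Z).all fun b => l.any fun F => F.testBit a && F.testBit b) &&
    flatB n l Z tbl &&
    famB n l Z tbl sv && pathB l Z u0 p &&
    adjB l Z z0.val u0.val && adjB l Z z1.val (lastV u0 p).val &&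
    !decide (sF n (svz n sv z0.val) u0 =
      transport (cF n tbl) u0 p (sF n (svz n sv z1.val) (lastV u0 p)))

theorem not_nonEvasive_of_cert {n : ℕ} {l : List ℕ} {Z tbl sv : ℕ} {z0 z1 u0 : Fin n}
    {p : List (Fin n)} (h : neCert n l Z tbl sv z0 z1 u0 p = true) :
    ¬ NonEvasive (gen (decL n l)) := by
  simp only [neCert, Bool.and_eq_true, Nat.blt_eq] at h
  obtain ⟨⟨⟨⟨⟨⟨⟨⟨h1, h2⟩, h3⟩, h4⟩, h5⟩, h6⟩, h7⟩, h8⟩, h9⟩ := h
  have hfr : ∀ z u : Fin n, adjB l Z z.val u.val = true →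
      z ∈ dec n Z ∧ u ∉ dec n Z ∧ ∃ F ∈ decL n l, z ∈ F ∧ u ∈ F := by
    intro z u hu
    simp only [adjB, Bool.and_eq_true, List.any_eq_true] at hu
    obtain ⟨⟨h10, h11⟩, m, hm, h12, h13⟩ := hu
    exact ⟨mem_dec.2 h10, by rw [mem_dec]; simpa using h11, _, dec_mem_decL hm, mem_dec.2 h12,
      mem_dec.2 h13⟩
  have h3' : ∀ a ∈ dec n Z, ∀ b ∈ dec n Z, ∃ F ∈ decL n l, a ∈ F ∧ b ∈ F := by
    intro a ha b hb
    simp only [List.all_eq_true, List.any_eq_true, Bool.and_eq_true] at h3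
    obtain ⟨m, hm, h10, h11⟩ := h3 _ (val_mem_bits.2 ha) _ (val_mem_bits.2 hb)
    exact ⟨_, dec_mem_decL hm, mem_dec.2 h10, mem_dec.2 h11⟩
  have hin : ∀ (m : ℕ) (z : Fin n), z ∈ dec n m → z ∈ dec n Z → z.val ∈ bits n (Nat.land m Z) :=
    fun m z h h' => val_mem_bits.2 (by rw [dec_land]; exact mem_inter.2 ⟨h, h'⟩)
  simp only [famB, sec2, List.all_eq_true, Bool.and_eq_true, decide_eq_true_eq] at h5
  refine not_nonEvasive_of_conn (cF n tbl) (cF_self n tbl) (decL n l) (dec n Z)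
    h3' (dec_nonempty h2 h1.ne')
    (flat_of_flatB h4) (fun z => sF n (svz n sv z.val)) ?_ ?_ z0 z1 u0 p
    (pathOK_of_pathB (fun F => F ∈ decL n l) (fun m hm => dec_mem_decL hm) p u0 h6)
    (hfr _ _ h7) (hfr _ _ h8) (by simpa using h9)
  · intro F hF z hz hzZ u hu w hw huZ hwZ
    obtain ⟨m, hm, rfl⟩ := mem_decL.1 hF
    exact (h5 m hm _ (hin m z hz hzZ)).1 _ (mem_outB hu huZ) _ (mem_outB hw hwZ)
  · intro F hF z hz hzZ z' hz' hzZ' u hu huZ
    obtain ⟨m, hm, rfl⟩ := mem_decL.1 hF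
    exact (h5 m hm _ (hin m z hz hzZ)).2 _ (hin m z' hz' hzZ') _ (mem_outB hu huZ)

theorem card_dec (n m : ℕ) : (dec n m).card = (bits n m).length := by
  have h1 : (bits n m).Nodup := List.Nodup.filter _ List.nodup_range
  rw [← List.toFinset_card_of_nodup h1, ← card_map Fin.valEmbedding]
  congr 1
  ext z
  rw [List.mem_toFinset, mem_bits, mem_map]
  constructor
  · rintro ⟨i, hi, rfl⟩
    exact ⟨i.2, mem_dec.1 hi⟩
  · rintro ⟨h2, h3⟩
    exact ⟨⟨z, h2⟩, mem_dec.2 h3, rfl⟩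

def pureB (n k : ℕ) (l : List ℕ) : Bool := l.all fun F => Nat.beq (bits n F).length k

theorem card_of_pureB {n k : ℕ} {l : List ℕ} (h : pureB n k l = true) :
    ∀ F ∈ decL n l, F.card = k := by
  intro F hF
  obtain ⟨m, hm, rfl⟩ := mem_decL.1 hF
  rw [card_dec]
  exact Nat.eq_of_beq_eq_true (List.all_eq_true.1 h m hm)

def lcCert (n d : ℕ) (l : List ℕ) (E tbl sv : ℕ) (u0 : Fin n) (p : List (Fin n)) : Bool :=
  Nat.blt 0 E && Nat.blt E (2 ^ n) && Nat.beq ((bits n E).length + 1) d && pureB n (d + 1) l &&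
    flatB n l E tbl && secB n (l.filter (subB E)) E tbl sv && pathB l E u0 p &&
    frB (l.filter (subB E)) E u0.val && frB (l.filter (subB E)) E (lastV u0 p).val &&
    Nat.ble (l.filter (subB E)).length 3 &&
    !decide (sF n sv u0 = transport (cF n tbl) u0 p (sF n sv (lastV u0 p)))

theorem not_isLC_of_cert {n d : ℕ} {l : List ℕ} {E tbl sv : ℕ} {u0 : Fin n}
    {p : List (Fin n)} (h : lcCert n d l E tbl sv u0 p = true) :
    ¬ IsLC d (gen (decL n l)) := by
  simp only [lcCert, Bool.and_eq_true, Nat.blt_eq, Nat.ble_eq, Nat.beq_eq] at h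
  obtain ⟨⟨⟨⟨⟨⟨⟨⟨⟨⟨h1, h2⟩, h3⟩, hp⟩, h4⟩, h5⟩, h6⟩, h7⟩, h8⟩, h10⟩, h9⟩ := h
  have hfac : ∀ m ∈ l, IsFacet (gen (decL n l)) (dec n m) := fun m hm =>
    isFacet_of_mem (card_of_pureB hp) (dec_mem_decL hm)
  have hfr : ∀ u : Fin n, frB (l.filter (subB E)) E u.val = true →
      u ∉ dec n E ∧ ∃ F, IsFacet (gen (decL n l)) F ∧ u ∈ F ∧ dec n E ⊆ F := by
    intro u hu
    simp only [frB, Bool.and_eq_true, List.any_eq_true, List.mem_filter] at hu
    obtain ⟨h10, m, ⟨hm, h11⟩, h12⟩ := hu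
    exact ⟨by rw [mem_dec]; simpa using h10, _, hfac m hm, mem_dec.2 h12, sub_of_subB h11⟩
  have hin : ∀ F, IsFacet (gen (decL n l)) F → dec n E ⊆ F →
      F ∈ decL n (l.filter (subB E)) := by
    intro F hF hEF
    obtain ⟨m, hm, rfl⟩ := mem_decL.1 (mem_of_isFacet hF)
    exact dec_mem_decL (List.mem_filter.2 ⟨hm, subB_of_sub h2 hEF⟩)
  refine not_isLC_of_conn (cF n tbl) (cF_self n tbl) d _ (dec n E) (by rw [card_dec]; exact h3)
    (dec_nonempty h2 h1.ne') (fun F hF => flat_of_flatB h4 F (mem_of_isFacet hF)) (sF n sv) ?_ ?_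
    u0 p (pathOK_of_pathB _ hfac p u0 h6) (hfr _ h7) (hfr _ h8) (by simpa using h9)
  · intro F hF hEF
    obtain ⟨m, hm, rfl⟩ := mem_decL.1 (hin F hF hEF)
    exact sec_of_secB h5 m hm
  · intro A B C H hA hB hC hH hEA hEB hEC hEH hAB hCA hCB
    by_contra hcon
    push Not at hcon
    have hsub : ({H, C, A, B} : Finset (Finset (Fin n))) ⊆ decL n (l.filter (subB E)) := by
      intro x hx
      simp only [mem_insert, mem_singleton] at hx
      rcases hx with rfl | rfl | rfl | rfl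
      · exact hin _ hH hEH
      · exact hin _ hC hEC
      · exact hin _ hA hEA
      · exact hin _ hB hEB
    have hc : ({H, C, A, B} : Finset (Finset (Fin n))).card = 4 := by
      rw [card_insert_of_notMem (by simp [hcon.1, hcon.2.1, hcon.2.2]),
        card_insert_of_notMem (by simp [hCA, hCB]), card_pair hAB]
    have h11 := card_le_card hsub
    have h12 : (decL n (l.filter (subB E))).card ≤ (l.filter (subB E)).length := by
      unfold decL
      exact (List.toFinset_card_le _).trans (by rw [List.length_map])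
    omega

/-! ### suspensions, cones, deletions -/

theorem decL_append (n : ℕ) (l l' : List ℕ) : decL n (l ++ l') = decL n l ∪ decL n l' := by
  simp [decL]

theorem decL_map_ins {n : ℕ} (l : List ℕ) (a : Fin n) :
    decL n (l.map (fun m => Nat.lor m (2 ^ a.val))) = (decL n l).image (insert a) := by
  ext A
  rw [mem_decL, mem_image]
  constructor
  · rintro ⟨m', hm', rfl⟩
    obtain ⟨m, hm, h⟩ := List.mem_map.1 hm'
    exact ⟨_, dec_mem_decL hm, by rw [← h]; exact (dec_ins m a).symm⟩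
  · rintro ⟨F, hF, rfl⟩
    obtain ⟨m, hm, rfl⟩ := mem_decL.1 hF
    exact ⟨_, List.mem_map.2 ⟨m, hm, rfl⟩, dec_ins m a⟩

def suspB (l : List ℕ) (a b : ℕ) : List ℕ :=
  l.map (fun m => Nat.lor m (2 ^ a)) ++ l.map (fun m => Nat.lor m (2 ^ b))

theorem nonEvasive_of_suspB {n : ℕ} {l : List ℕ} {a b : Fin n} (hab : a ≠ b) (hne : l ≠ [])
    (ha : l.all (fun m => !m.testBit a.val) = true) (hb : l.all (fun m => !m.testBit b.val) = true)
    (h : NonEvasive (gen (decL n (suspB l a.val b.val)))) : NonEvasive (gen (decL n l)) := by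
  have hΦ : ∀ F ∈ decL n l, a ∉ F ∧ b ∉ F := fun F hF =>
    ⟨not_mem_of_all ha F hF, not_mem_of_all hb F hF⟩
  obtain ⟨m, hm⟩ := List.exists_mem_of_ne_nil l hne
  refine h.of_susp hab _ (down_gen _) (mem_gen.2 ⟨_, dec_mem_decL hm, empty_subset _⟩) ?_ ?_
  · intro σ hσ
    obtain ⟨F, hF, hs⟩ := mem_gen.1 hσ
    exact ⟨fun h => (hΦ F hF).1 (hs h), fun h => (hΦ F hF).2 (hs h)⟩
  · intro σ
    rw [suspB, decL_append, decL_map_ins, decL_map_ins]
    exact mem_gen_susp hΦ hab σ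

theorem nonEvasive_coneB {n : ℕ} {l : List ℕ} (a : Fin n) (hne : l ≠ [])
    (ha : l.all (fun m => m.testBit a.val) = true) : NonEvasive (gen (decL n l)) := by
  obtain ⟨m, hm⟩ := List.exists_mem_of_ne_nil l hne
  refine nonEvasive_cone a _ _ le_rfl (down_gen _)
    (mem_gen.2 ⟨_, dec_mem_decL hm, empty_subset _⟩) ?_
  intro σ hσ
  obtain ⟨F, hF, hs⟩ := mem_gen.1 hσ
  obtain ⟨m, hm, rfl⟩ := mem_decL.1 hF
  exact mem_gen.2 ⟨_, hF, insert_subset (mem_dec.2 (List.all_eq_true.1 ha m hm)) hs⟩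

def delB (l : List ℕ) (v : ℕ) : List ℕ :=
  l.map (fun m => if m.testBit v = true then Nat.xor m (2 ^ v) else m)

theorem del_gen {n : ℕ} (l : List ℕ) (v : Fin n) :
    del (gen (decL n l)) v = gen (decL n (delB l v.val)) := by
  have key : ∀ m, dec n (if m.testBit v.val = true then Nat.xor m (2 ^ v.val) else m) =
      (dec n m).erase v := by
    intro m
    split_ifs with h
    · exact dec_xor (mem_dec.2 h)
    · exact (erase_eq_of_notMem (fun h' => h (mem_dec.1 h'))).symm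
  ext σ
  rw [mem_del, mem_gen, mem_gen]
  constructor
  · rintro ⟨⟨F, hF, hs⟩, hv⟩
    obtain ⟨m, hm, rfl⟩ := mem_decL.1 hF
    refine ⟨_, dec_mem_decL (List.mem_map.2 ⟨m, hm, rfl⟩), ?_⟩
    rw [key]
    exact fun x hx => mem_erase.2 ⟨fun h => hv (h ▸ hx), hs hx⟩
  · rintro ⟨F, hF, hs⟩
    obtain ⟨m', hm', rfl⟩ := mem_decL.1 hF
    obtain ⟨m, hm, h⟩ := List.mem_map.1 hm'
    rw [← h, key] at hs
    exact ⟨⟨_, dec_mem_decL hm, hs.trans (erase_subset _ _)⟩, fun h => notMem_erase v _ (hs h)⟩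

/-- every ridge through `v` lies in a second facet -/
def innerB (n : ℕ) (l : List ℕ) (v : ℕ) : Bool :=
  (l.filter (fun F => F.testBit v)).all fun F => Nat.blt F (2 ^ n) &&
    (bits n F).all fun u => Nat.beq u v ||
      l.any (fun F' => subB (Nat.xor F (2 ^ u)) F' && Nat.blt F' (2 ^ n) && !subB F' F)

theorem not_nonEvasive_lk_of_innerB {n : ℕ} {l : List ℕ} {v : Fin n}
    (h : innerB n l v.val = true) : ¬ NonEvasive (lk (gen (decL n l)) v) := by
  refine not_nonEvasive_lk ?_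
  intro F hF hv u hu huv
  obtain ⟨m, hm, rfl⟩ := mem_decL.1 hF
  simp only [innerB, List.all_eq_true, Bool.and_eq_true, Bool.or_eq_true, List.any_eq_true,
    Nat.blt_eq, Nat.beq_eq] at h
  obtain ⟨_, h2⟩ := h m (List.mem_filter.2 ⟨hm, mem_dec.1 hv⟩)
  rcases h2 u.val (val_mem_bits.2 hu) with h3 | ⟨m', hm', ⟨h4, h5⟩, h6⟩
  · exact absurd (Fin.ext h3) huv
  · exact ⟨_, dec_mem_decL hm', (dec_xor hu) ▸ sub_of_subB h4,
      not_sub_of_subB h5 (by simpa using h6)⟩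

end Pool.Agent.H200Z
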