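import Mathlib

set_option autoImplicit false

/-! Comparability graphs, clique graphs and their iterates. -/

namespace Pool.Agent.H200Z.Clique

/-- The comparability graph: distinct elements are adjacent iff comparable. -/
def compGraph (P : Type) [PartialOrder P] : SimpleGraph P where
  Adj a b := a ≠ b ∧ (a ≤ b ∨ b ≤ a)
  symm := ⟨fun _ _ h => ⟨h.1.symm, h.2.symm⟩⟩
  loopless := ⟨fun _ h => h.1 rfl⟩

/-- The clique graph: vertices are the inclusion-maximal cliques, two distinct ones are adjacent
iff they share a vertex. -/
def cliqueGraph {V : Type} (G : SimpleGraph V) :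
    SimpleGraph {s : Set V // Maximal G.IsClique s} where
  Adj A B := A ≠ B ∧ (A.1 ∩ B.1).Nonempty
  symm := ⟨fun _ _ h => ⟨h.1.symm, by rw [Set.inter_comm]; exact h.2⟩⟩
  loopless := ⟨fun _ h => h.1 rfl⟩

/-- The clique operator on graphs packaged with their vertex type. -/
def K (g : Σ V : Type, SimpleGraph V) : Σ V : Type, SimpleGraph V := ⟨_, cliqueGraph g.2⟩

/-- The number of vertices of the `n`-th iterated clique graph of the comparability graph. -/
noncomputable def iterCard (P : Type) [PartialOrder P] (n : ℕ) : ℕ :=
  Nat.card (K^[n] ⟨P, compGraph P⟩).1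

end Pool.Agent.H200Z.Clique
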