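import Mathlib
import Pool.Agent.H200Z.CliqueDefs
import Pool.Agent.H506R2.FPP

set_option autoImplicit false

/-! A non-trivial mod 2 cohomology class of the clique complex passes to the clique graph. -/

namespace Pool.Agent.H200Z.Clique

/-- equal or adjacent -/
def R {V : Type} (G : SimpleGraph V) (a b : V) : Prop := a = b ∨ G.Adj a b

/-- there is a mod 2 cocycle on the clique complex that is not a coboundary -/
def Q {V : Type} (G : SimpleGraph V) : Prop :=
  ∃ φ : V → V → ZMod 2, (∀ a b c, R G a b → R G b c → R G a c → φ a b + φ b c + φ a c = 0) ∧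
    ¬ ∃ h : V → ZMod 2, ∀ a b, R G a b → φ a b = h a + h b

lemma R_of_clique {V : Type} {G : SimpleGraph V} {s : Set V} (hs : G.IsClique s) {a b : V}
    (ha : a ∈ s) (hb : b ∈ s) : R G a b := by
  by_cases h : a = b
  · exact Or.inl h
  · exact Or.inr (hs ha hb h)

lemma exists_max {V : Type} [Finite V] {G : SimpleGraph V} {a b : V} (h : R G a b) :
    ∃ A : {s : Set V // Maximal G.IsClique s}, a ∈ A.1 ∧ b ∈ A.1 := by
  have h1 : G.IsClique ({a, b} : Set V) := by
    rcases h with h | h
    · subst h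
      simp
    · simpa using fun _ => h
  obtain ⟨s, hs, hm⟩ := Finite.exists_le_maximal (p := G.IsClique) h1
  exact ⟨⟨s, hm⟩, hs (by simp), hs (by simp)⟩

lemma max_nonempty {V : Type} [Nonempty V] {G : SimpleGraph V}
    (A : {s : Set V // Maximal G.IsClique s}) : A.1.Nonempty := by
  by_contra h
  rw [Set.not_nonempty_iff_eq_empty] at h
  obtain ⟨v⟩ := ‹Nonempty V›
  have h1 : G.IsClique ({v} : Set V) := by simp
  have := A.2.2 h1 (by rw [h]; exact Set.empty_subset _)
  rw [h] at this
  exact this (Set.mem_singleton v)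

lemma Q.nontrivial {V : Type} {G : SimpleGraph V} (h : Q G) : Nontrivial V := by
  obtain ⟨φ, h1, h2⟩ := h
  by_contra hn
  rw [not_nontrivial_iff_subsingleton] at hn
  refine h2 ⟨fun _ => 0, fun a b _ => ?_⟩
  have hab : a = b := Subsingleton.elim a b
  subst hab
  have := h1 a a a (Or.inl rfl) (Or.inl rfl) (Or.inl rfl)
  show φ a a = 0 + 0
  revert this
  generalize φ a a = x
  revert x
  decide

lemma Q.step {V : Type} [Finite V] {G : SimpleGraph V} (h : Q G) : Q (cliqueGraph G) := by
  classical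
  have := h.nontrivial
  obtain ⟨φ, h1, h2⟩ := h
  let p : {s : Set V // Maximal G.IsClique s} → V → ZMod 2 :=
    fun A v => φ (max_nonempty A).some v
  have hp : ∀ A u v, u ∈ A.1 → v ∈ A.1 → φ u v = p A u + p A v := by
    intro A u v hu hv
    have hb := (max_nonempty A).some_mem
    have := h1 _ u v (R_of_clique A.2.1 hb hu) (R_of_clique A.2.1 hu hv) (R_of_clique A.2.1 hb hv)
    simp only [p]
    revert this
    generalize φ (max_nonempty A).some u = x
    generalize φ (max_nonempty A).some v = y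
    generalize φ u v = z
    revert x y z
    decide
  let ψ : {s : Set V // Maximal G.IsClique s} → {s : Set V // Maximal G.IsClique s} → ZMod 2 :=
    fun A B => if h : (A.1 ∩ B.1).Nonempty then p A h.some + p B h.some else 0
  have hψ : ∀ A B v, v ∈ A.1 → v ∈ B.1 → ψ A B = p A v + p B v := by
    intro A B v hA hB
    have hne : (A.1 ∩ B.1).Nonempty := ⟨v, hA, hB⟩
    simp only [ψ, dif_pos hne]
    have e1 := hp A _ v hne.some_mem.1 hA
    have e2 := hp B _ v hne.some_mem.2 hB
    rw [e1] at e2
    revert e2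
    generalize p A hne.some = x
    generalize p B hne.some = y
    generalize p A v = z
    generalize p B v = w
    revert x y z w
    decide
  have hR : ∀ A B, R (cliqueGraph G) A B → ∃ v, v ∈ A.1 ∧ v ∈ B.1 := by
    intro A B hAB
    rcases hAB with hAB | hAB
    · subst hAB
      exact ⟨_, (max_nonempty A).some_mem, (max_nonempty A).some_mem⟩
    · exact hAB.2
  have hR' : ∀ A B v, v ∈ A.1 → v ∈ B.1 → R (cliqueGraph G) A B := by
    intro A B v hA hB
    by_cases hAB : A = B
    · exact Or.inl hAB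
    · exact Or.inr ⟨hAB, v, hA, hB⟩
  refine ⟨ψ, ?_, ?_⟩
  · intro A B C hAB hBC hAC
    obtain ⟨u, huA, huB⟩ := hR A B hAB
    obtain ⟨v, hvB, hvC⟩ := hR B C hBC
    obtain ⟨w, hwA, hwC⟩ := hR A C hAC
    rw [hψ A B u huA huB, hψ B C v hvB hvC, hψ A C w hwA hwC]
    have := h1 u v w (R_of_clique B.2.1 huB hvB) (R_of_clique C.2.1 hvC hwC)
      (R_of_clique A.2.1 huA hwA)
    rw [hp B u v huB hvB, hp C v w hvC hwC, hp A u w huA hwA] at this
    linear_combination this
  · rintro ⟨H, hH⟩
    choose A hA using fun v : V => exists_max (G := G) (Or.inl (rfl : v = v))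
    have key : ∀ B v, v ∈ B.1 → p B v = p (A v) v + H (A v) + H B := by
      intro B v hv
      have e := hH B (A v) (hR' B (A v) v hv (hA v).1)
      rw [hψ B (A v) v hv (hA v).1] at e
      revert e
      generalize p B v = x
      generalize p (A v) v = y
      generalize H B = z
      generalize H (A v) = w
      revert x y z w
      decide
    refine h2 ⟨fun v => p (A v) v + H (A v), fun a b hab => ?_⟩
    obtain ⟨B, ha, hb⟩ := exists_max hab
    rw [hp B a b ha hb, key B a ha, key B b hb]
    generalize H B = z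
    have : z + z = 0 := by revert z; decide
    linear_combination this

lemma iter_Q (g : Σ V : Type, SimpleGraph V) (hf : Finite g.1) (hq : Q g.2) (n : ℕ) :
    Finite (K^[n] g).1 ∧ Q (K^[n] g).2 := by
  induction n with
  | zero => exact ⟨hf, hq⟩
  | succ n ih =>
    rw [Function.iterate_succ_apply']
    have := ih.1
    exact ⟨inferInstanceAs (Finite {s : Set (K^[n] g).1 // _}), ih.2.step⟩

/-! The eleven-element example. -/

def up : List ℕ := [1977, 2010, 2028, 392, 784, 1184, 1600, 128, 256, 512, 1024]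
def dn : List ℕ := [1, 2, 4, 15, 19, 37, 70, 175, 287, 599, 1127]
def cov : List (ℕ × ℕ) := [(2,3),(0,3),(1,3),(3,8),(3,7),(1,4),(0,4),(4,9),(4,8),(0,5),(2,5),
  (5,10),(5,7),(2,6),(1,6),(6,10),(6,9)]

/-- the underlying set of the example -/
structure P11 where
  v : Fin 11
deriving DecidableEq

def equivP : P11 ≃ Fin 11 := ⟨P11.v, P11.mk, fun _ => rfl, fun _ => rfl⟩

instance : Fintype P11 := Fintype.ofEquiv (Fin 11) equivP.symm

def leb (a b : ℕ) : Bool := (up.getD a 0).testBit b

instance : PartialOrder P11 where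
  le a b := leb a.v b.v = true
  le_refl a := by
    have : ∀ a : Fin 11, leb a a = true := by decide +kernel
    exact this a.v
  le_trans a b c h1 h2 := by
    have : ∀ a b c : Fin 11, leb a b = true → leb b c = true → leb a c = true := by
      decide +kernel
    exact this _ _ _ h1 h2
  le_antisymm a b h1 h2 := by
    have : ∀ a b : Fin 11, leb a b = true → leb b a = true → a = b := by decide +kernel
    have h := this _ _ h1 h2
    cases a; cases b
    exact congrArg P11.mk h

def D0 : List ℕ := [2046, 2045, 2043, 2039, 2031, 2015, 1983, 1919, 1791, 1535, 1023]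

theorem fpp (f : P11 → P11) (hf : Monotone f) : ∃ x, f x = x := by
  by_contra hcon
  push Not at hcon
  let g : ℕ → ℕ := fun i => if h : i < 11 then (f ⟨⟨i, h⟩⟩).v.val else 0
  have hg : ∀ (i : ℕ) (h : i < 11), g i = (f ⟨⟨i, h⟩⟩).v.val := fun i h => by
    simp only [g, dif_pos h]
  have hgood : H506R2.FPP.Good 11 up dn cov g := by
    constructor
    · intro i hi
      rw [hg i hi]
      exact (f ⟨⟨i, hi⟩⟩).v.isLt
    · intro c hc
      have h1 : ∀ c ∈ cov, c.1 < 11 ∧ c.2 < 11 ∧ c.1 ≠ c.2 ∧ leb c.1 c.2 = true := by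
        decide +kernel
      obtain ⟨h1, h2, h3, h4⟩ := h1 c hc
      have h5 : f ⟨⟨c.1, h1⟩⟩ ≤ f ⟨⟨c.2, h2⟩⟩ := hf h4
      have h6 : ∀ a b : Fin 11, leb a b = true → (dn.getD b 0).testBit a = true := by
        decide +kernel
      refine ⟨h1, h2, h3, ?_, ?_⟩
      · rw [hg _ h1, hg _ h2]
        exact h5
      · rw [hg _ h1, hg _ h2]
        exact h6 _ _ h5
  have hinv : H506R2.FPP.Inv 11 g D0 := by
    refine ⟨by decide, fun x hx => ?_⟩
    have h1 : ∀ x y : Fin 11, y ≠ x → (D0.getD x 0).testBit y = true := by decide +kernel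
    rw [hg x hx]
    refine h1 ⟨x, hx⟩ _ fun h => hcon ⟨⟨x, hx⟩⟩ ?_
    generalize f ⟨⟨x, hx⟩⟩ = y at h
    cases y
    exact congrArg P11.mk h
  have h := H506R2.FPP.search_sound hgood 6 [4] (by simp) hinv
  have h' : H506R2.FPP.search 11 up dn cov 6 [4] D0 = true := by decide +kernel
  rw [h'] at h
  exact Bool.noConfusion h

def coc (a b : Fin 11) : ZMod 2 :=
  if (a.val, b.val) ∈ [(6, 9), (1, 6), (2, 9), (1, 10), (9, 6), (6, 1), (9, 2), (10, 1)]
    then 1 else 0

lemma R_iff (a b : P11) :
    R (compGraph P11) a b ↔ (leb a.v b.v = true ∨ leb b.v a.v = true) := by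
  constructor
  · rintro (h | h)
    · subst h
      exact Or.inl (le_refl a)
    · exact h.2
  · intro h
    by_cases hab : a = b
    · exact Or.inl hab
    · exact Or.inr ⟨hab, h⟩

theorem Q11 : Q (compGraph P11) := by
  refine ⟨fun a b => coc a.v b.v, fun a b c hab hbc hac => ?_, ?_⟩
  · rw [R_iff] at hab hbc hac
    have : ∀ a b c : Fin 11, (leb a b = true ∨ leb b a = true) →
        (leb b c = true ∨ leb c b = true) → (leb a c = true ∨ leb c a = true) →
        coc a b + coc b c + coc a c = 0 := by decide +kernel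
    exact this _ _ _ hab hbc hac
  · rintro ⟨h, hh⟩
    have e1 := hh ⟨1⟩ ⟨6⟩ ((R_iff _ _).2 (by decide +kernel))
    have e2 := hh ⟨2⟩ ⟨6⟩ ((R_iff _ _).2 (by decide +kernel))
    have e3 := hh ⟨2⟩ ⟨3⟩ ((R_iff _ _).2 (by decide +kernel))
    have e4 := hh ⟨1⟩ ⟨3⟩ ((R_iff _ _).2 (by decide +kernel))
    have c1 : coc 1 6 = 1 := by decide +kernel
    have c2 : coc 2 6 = 0 := by decide +kernel
    have c3 : coc 2 3 = 0 := by decide +kernel
    have c4 : coc 1 3 = 0 := by decide +kernel
    simp only [c1, c2, c3, c4] at e1 e2 e3 e4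
    revert e1 e2 e3 e4
    generalize h ⟨1⟩ = x
    generalize h ⟨2⟩ = y
    generalize h ⟨3⟩ = z
    generalize h ⟨6⟩ = w
    revert x y z w
    decide

theorem two_le (n : ℕ) : 2 ≤ iterCard P11 n := by
  obtain ⟨h1, h2⟩ := iter_Q ⟨P11, compGraph P11⟩ (inferInstanceAs (Finite P11)) Q11 n
  have := h1
  exact Finite.one_lt_card_iff_nontrivial.2 h2.nontrivial

end Pool.Agent.H200Z.Clique
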