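import Mathlib

/-! Word metrics, quasi-isometry, commensurability, high transitivity. -/

set_option autoImplicit false

namespace Pool.Agent.H200Z.HT

/-- word length with respect to `S` -/
noncomputable def wordLength {G : Type} [Group G] (S : Finset G) (g : G) : ℕ :=
  sInf {n | ∃ l : List G, (∀ x ∈ l, x ∈ S ∨ x⁻¹ ∈ S) ∧ l.prod = g ∧ l.length = n}

/-- word metric with respect to `S` -/
noncomputable def wordDist {G : Type} [Group G] (S : Finset G) (g h : G) : ℕ :=
  wordLength S (g⁻¹ * h)

/-- for all finite generating sets the word metrics are quasi-isometric -/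
def QuasiIsometric (G H : Type) [Group G] [Group H] : Prop :=
  ∀ (S : Finset G) (T : Finset H), Subgroup.closure (S : Set G) = ⊤ →
    Subgroup.closure (T : Set H) = ⊤ →
    ∃ (f : G → H) (C : ℕ),
      (∀ a b, wordDist T (f a) (f b) ≤ C * wordDist S a b + C ∧
        wordDist S a b ≤ C * wordDist T (f a) (f b) + C) ∧
      ∀ h, ∃ a, wordDist T h (f a) ≤ C

/-- some finite-index subgroup of `G` is isomorphic to some finite-index subgroup of `K` -/
def CommensurableGroups (G K : Type) [Group G] [Group K] : Prop :=
  ∃ (A : Subgroup G) (B : Subgroup K), A.FiniteIndex ∧ B.FiniteIndex ∧ Nonempty (A ≃* B)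

/-- `G` has a faithful action on an infinite set that is `k`-transitive for every `k` -/
def HighlyTransitive (G : Type) [Group G] : Prop :=
  ∃ (Ω : Type) (_ : MulAction G Ω), Infinite Ω ∧ FaithfulSMul G Ω ∧
    ∀ (k : ℕ) (x y : Fin k ↪ Ω), ∃ g : G, ∀ i, g • x i = y i

end Pool.Agent.H200Z.HT
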