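import Pool.Agent.H200Z.HTQI

/-! A finitely generated group with a highly transitive quotient by a finite central subgroup that
lies in every subgroup of finite index. -/

set_option autoImplicit false

namespace Pool.Agent.H200Z.HT

open Equiv

/-- a finite-index subgroup of a highly transitive group has trivial centraliser -/
theorem eq_one_of_centralises {K : Type} [Group K] (hK : HighlyTransitive K) (B : Subgroup K)
    (hB : B.FiniteIndex) (c : K) (hc : ∀ b ∈ B, b * c = c * b) : c = 1 := by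
  classical
  obtain ⟨Ω, _, hinf, hf, ht⟩ := hK
  by_contra hc1
  have : ∃ x : Ω, c • x ≠ x := by
    by_contra h
    push Not at h
    exact hc1 (FaithfulSMul.eq_of_smul_eq_smul (α := Ω) fun x => by rw [h x, one_smul])
  obtain ⟨x, hx⟩ := this
  have h2 : ∀ w : {w : Ω // w ≠ x}, ∃ g : K, g • x = x ∧ g • (c • x) = w.1 := by
    intro w
    have i1 : Function.Injective ![x, c • x] := by
      intro i j h
      fin_cases i <;> fin_cases j <;> simp_all [eq_comm]
    have i2 : Function.Injective ![x, w.1] := by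
      have := w.2
      intro i j h
      fin_cases i <;> fin_cases j <;> simp_all [eq_comm]
    obtain ⟨g, hg⟩ := ht 2 ⟨_, i1⟩ ⟨_, i2⟩
    exact ⟨g, hg 0, hg 1⟩
  choose h h3 h4 using h2
  have : Infinite {w : Ω // w ≠ x} := by
    have : ({x}ᶜ : Set Ω).Infinite := (Set.finite_singleton x).infinite_compl
    exact this.to_subtype
  obtain ⟨w, w', hne, he⟩ := Finite.exists_ne_map_eq_of_infinite
    (fun w => (QuotientGroup.mk (h w) : K ⧸ B))
  rw [QuotientGroup.eq] at he
  have e1 : ((h w)⁻¹ * h w') • x = x := by rw [mul_smul, h3, inv_smul_eq_iff, h3]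
  have e2 : ((h w)⁻¹ * h w') • (c • x) = c • x := by
    rw [← mul_smul, hc _ he, mul_smul, e1]
  rw [mul_smul, h4, inv_smul_eq_iff, h4] at e2
  exact hne (Subtype.ext e2.symm)

/-- a permutation group containing all transpositions is `k`-transitive for all `k` -/
theorem trans_of_swaps {X : Type} [DecidableEq X] (H : Subgroup (Perm X))
    (hH : ∀ a b, swap a b ∈ H) (k : ℕ) (x y : Fin k ↪ X) : ∃ g ∈ H, ∀ i, g (x i) = y i := by
  induction k with
  | zero => exact ⟨1, H.one_mem, fun i => i.elim0⟩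
  | succ k ih =>
    obtain ⟨g, hg, h⟩ := ih ((Fin.succEmb k).trans x) ((Fin.succEmb k).trans y)
    refine ⟨swap (g (x 0)) (y 0) * g, H.mul_mem (hH _ _) hg, fun i => ?_⟩
    refine Fin.cases ?_ (fun i => ?_) i
    · simp
    · have e : g (x i.succ) = y i.succ := h i
      rw [Perm.mul_apply, swap_apply_of_ne_of_ne, e]
      · exact fun h' => Fin.succ_ne_zero i (x.injective (g.injective h'))
      · rw [e]
        exact fun h' => Fin.succ_ne_zero i (y.injective h')

theorem general (Q : Type) [Group Q] [Infinite Q] [hQ : Group.FG Q] (z : Q) (hz1 : z ≠ 1)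
    (hzc : ∀ q, q * z = z * q) (hz2 : z ^ 2 = 1)
    (hzf : ∀ N : Subgroup Q, N.FiniteIndex → z ∈ N) :
    ∃ (G H : Type) (_ : Group G) (_ : Group H), Group.FG G ∧ Group.FG H ∧ QuasiIsometric G H ∧
      HighlyTransitive H ∧
      ∀ (K : Type) [Group K], CommensurableGroups G K → ¬ HighlyTransitive K := by
  classical
  obtain ⟨S, hS⟩ := hQ.out
  let Z := Subgroup.zpowers z
  have hZfin : (Z : Set Q).Finite :=
    finite_zpowers.2 (isOfFinOrder_iff_pow_eq_one.2 ⟨2, by norm_num, hz2⟩)
  have : Finite Z := hZfin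
  have hZc : ∀ y ∈ Z, ∀ q, q * y = y * q := by
    rintro y ⟨n, rfl⟩ q
    exact (Commute.zpow_right (hzc q) n)
  let X := Q ⧸ Z
  have hX : Infinite X := by
    by_contra h
    rw [not_infinite_iff_finite] at h
    have : Finite Q := Finite.of_equiv _ (Subgroup.groupEquivQuotientProdSubgroup (s := Z)).symm
    exact not_finite Q
  let ρ : Q →* Perm X := MulAction.toPermHom Q X
  have hρ : ∀ q x, ρ q x = q • x := fun _ _ => rfl
  let x0 : X := QuotientGroup.mk 1
  let gens : Set (Q × Perm X) :=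
    (fun s => (s, ρ s)) '' (S : Set Q) ∪ (fun s => (1, swap x0 (s • x0))) '' (S : Set Q)
  have : Finite gens := ((S.finite_toSet.image _).union (S.finite_toSet.image _)).to_subtype
  let G := Subgroup.closure gens
  have hGfg : Group.FG G := Group.closure_finite_fg gens
  let π : G →* Perm X := (MonoidHom.snd _ _).comp G.subtype
  have hdiag : ∀ q, (q, ρ q) ∈ G := by
    intro q
    have hq : q ∈ Subgroup.closure (S : Set Q) := by rw [hS]; trivial
    induction hq using Subgroup.closure_induction with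
    | mem s hs => exact Subgroup.subset_closure (Or.inl ⟨s, hs, rfl⟩)
    | one => rw [map_one]; exact G.one_mem
    | mul a b _ _ ha hb => rw [map_mul]; exact G.mul_mem ha hb
    | inv a _ ha => rw [map_inv]; exact G.inv_mem ha
  have hconj : ∀ (q : Q) (a b : X), ((1 : Q), swap a b) ∈ G →
      ((1 : Q), swap (q • a) (q • b)) ∈ G := by
    intro q a b h
    have := G.mul_mem (G.mul_mem (hdiag q) h) (G.inv_mem (hdiag q))
    simp only [Prod.mk_mul_mk, Prod.inv_mk, mul_one, mul_inv_cancel] at this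
    rwa [← swap_apply_apply, hρ, hρ] at this
  have htr : ∀ a b c : X, ((1 : Q), swap a b) ∈ G → ((1 : Q), swap b c) ∈ G →
      ((1 : Q), swap a c) ∈ G := by
    intro a b c h1 h2
    by_cases hab : a = b
    · rwa [hab]
    by_cases hac : a = c
    · rw [hac, swap_self]; exact G.one_mem
    have := G.mul_mem (G.mul_mem h2 h1) h2
    simp only [Prod.mk_mul_mk, mul_one] at this
    rwa [swap_mul_swap_mul_swap hab hac, swap_comm] at this
  have hsw0 : ∀ q : Q, ((1 : Q), swap x0 (q • x0)) ∈ G := by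
    intro q
    have hq : q ∈ Subgroup.closure (S : Set Q) := by rw [hS]; trivial
    induction hq using Subgroup.closure_induction with
    | mem s hs => exact Subgroup.subset_closure (Or.inr ⟨s, hs, rfl⟩)
    | one => rw [one_smul, swap_self]; exact G.one_mem
    | mul a b _ _ ha hb =>
      refine htr _ _ _ ha ?_
      rw [mul_smul]
      exact hconj a _ _ hb
    | inv a _ ha =>
      have := hconj a⁻¹ _ _ ha
      rwa [inv_smul_smul, swap_comm] at this
  have hsw : ∀ a b : X, ((1 : Q), swap a b) ∈ G := by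
    intro a b
    obtain ⟨p, rfl⟩ := QuotientGroup.mk_surjective a
    obtain ⟨q, rfl⟩ := QuotientGroup.mk_surjective b
    have e : ∀ p : Q, (QuotientGroup.mk p : X) = p • x0 := fun p => by
      show _ = (QuotientGroup.mk (p * 1) : X)
      rw [mul_one]
    rw [e, e]
    refine htr _ x0 _ ?_ (hsw0 q)
    rw [swap_comm]
    exact hsw0 p
  have hfin : ∀ g ∈ G, {x : X | g.2 x ≠ g.1 • x}.Finite := by
    intro g hg
    induction hg using Subgroup.closure_induction with
    | mem s hs =>
      rcases hs with ⟨s, _, rfl⟩ | ⟨s, _, rfl⟩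
      · simp [hρ]
      · refine (Set.toFinite {x0, s • x0}).subset fun x hx => ?_
        by_contra h
        simp only [Set.mem_insert_iff, Set.mem_singleton_iff, not_or] at h
        exact hx (by simp [swap_apply_of_ne_of_ne h.1 h.2])
    | one => simp
    | mul a b _ _ ha hb =>
      refine ((ha.preimage b.2.injective.injOn).union hb).subset fun x hx => ?_
      by_contra h
      simp only [Set.mem_union, Set.mem_preimage, Set.mem_setOf_eq, not_or, not_not] at h
      exact hx (by simp only [Prod.snd_mul, Prod.fst_mul, Perm.mul_apply, mul_smul]; rw [h.1, h.2])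
    | inv a _ ha =>
      refine (ha.image a.2).subset fun x hx => ⟨a.2⁻¹ x, fun h => hx ?_, by simp⟩
      simp only [Prod.snd_inv, Prod.fst_inv]
      rw [eq_inv_smul_iff, ← h]
      simp
  have hker : (π.rangeRestrict.ker : Set G).Finite := by
    refine Set.Finite.of_finite_image (f := fun g : G => g.1.1) (hZfin.subset ?_) ?_
    · rintro _ ⟨g, hg, rfl⟩
      have h1 : g.1.2 = 1 := congrArg Subtype.val (MonoidHom.mem_ker.1 hg)
      obtain ⟨x, hx⟩ := (hfin g.1 g.2).infinite_compl.nonempty
      simp only [Set.mem_compl_iff, Set.mem_setOf_eq, not_not, h1, Perm.one_apply] at hx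
      obtain ⟨p, rfl⟩ := QuotientGroup.mk_surjective x
      have h2 : (QuotientGroup.mk p : X) = QuotientGroup.mk (g.1.1 * p) := hx
      rw [QuotientGroup.eq] at h2
      have h3 := hZc _ h2 p
      rw [mul_inv_cancel_left] at h3
      have h4 : g.1.1 = p⁻¹ * (g.1.1 * p) := mul_right_cancel h3
      show g.1.1 ∈ Z
      rw [h4]
      exact h2
    · intro a ha b hb hab
      have h1 : a.1.2 = 1 := congrArg Subtype.val (MonoidHom.mem_ker.1 ha)
      have h2 : b.1.2 = 1 := congrArg Subtype.val (MonoidHom.mem_ker.1 hb)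
      exact Subtype.ext (Prod.ext hab (h1.trans h2.symm))
  have hρz : ρ z = 1 := by
    ext x
    obtain ⟨p, rfl⟩ := QuotientGroup.mk_surjective x
    show (QuotientGroup.mk (z * p) : X) = QuotientGroup.mk p
    rw [QuotientGroup.eq, ← hzc, mul_inv_rev, mul_assoc, inv_mul_cancel, mul_one]
    exact Z.inv_mem (Subgroup.mem_zpowers z)
  let ι : Q →* G := (MonoidHom.prod (MonoidHom.id Q) ρ).codRestrict G hdiag
  refine ⟨G, π.range, inferInstance, inferInstance, hGfg, inferInstance,
    qi_of_finite_ker π.rangeRestrict π.rangeRestrict_surjective hker, ?_, ?_⟩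
  · refine ⟨X, inferInstance, hX, inferInstance, fun k x y => ?_⟩
    obtain ⟨g, hg, h⟩ := trans_of_swaps π.range (fun a b => ⟨⟨_, hsw a b⟩, rfl⟩) k x y
    exact ⟨⟨g, hg⟩, h⟩
  · rintro K _ ⟨A, B, hA, hB, ⟨e⟩⟩ hK
    have hA' : (A.comap ι).FiniteIndex := by
      constructor
      rw [Subgroup.index_comap]
      exact Subgroup.FiniteIndex.index_ne_zero
    have hzA : ι z ∈ A := hzf _ hA'
    have hcen : ∀ g : G, g * ι z = ι z * g := by
      intro g
      refine Subtype.ext (Prod.ext (hzc _) ?_)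
      show g.1.2 * ρ z = ρ z * g.1.2
      rw [hρz, mul_one, one_mul]
    have := eq_one_of_centralises hK B hB (e ⟨ι z, hzA⟩).1 fun b hb => by
      obtain ⟨a, ha⟩ := e.surjective ⟨b, hb⟩
      have h1 : a * ⟨ι z, hzA⟩ = ⟨ι z, hzA⟩ * a := Subtype.ext (hcen a.1)
      have h2 := congrArg (fun t => (e t).1) h1
      simpa [ha] using h2
    have h1 : e ⟨ι z, hzA⟩ = 1 := Subtype.ext this
    rw [map_eq_one_iff _ e.injective] at h1
    exact hz1 (congrArg (fun t : A => t.1.1.1) h1)

/-! A Heisenberg-type extension of a lamplighter group, as a permutation group. -/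

abbrev Y : Type := (ℤ → ZMod 2) × ZMod 2

def pA (v : ℤ → ZMod 2) : Perm Y where
  toFun p := (p.1 + v, p.2)
  invFun p := (p.1 - v, p.2)
  left_inv p := by simp
  right_inv p := by simp

def pB (j : ℤ) : Perm Y where
  toFun p := (p.1, p.2 + p.1 j)
  invFun p := (p.1, p.2 - p.1 j)
  left_inv p := by simp
  right_inv p := by simp

def pU (n : ℤ) : Perm Y where
  toFun p := (fun i => p.1 (i - n), p.2)
  invFun p := (fun i => p.1 (i + n), p.2)
  left_inv p := by simp
  right_inv p := by simp

def pZ : Perm Y where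
  toFun p := (p.1, p.2 + 1)
  invFun p := (p.1, p.2 - 1)
  left_inv p := by simp
  right_inv p := by simp

lemma pA_apply (v : ℤ → ZMod 2) (p : Y) : pA v p = (p.1 + v, p.2) := rfl
lemma pA_inv (v : ℤ → ZMod 2) (p : Y) : (pA v)⁻¹ p = (p.1 - v, p.2) := rfl
lemma pB_apply (j : ℤ) (p : Y) : pB j p = (p.1, p.2 + p.1 j) := rfl
lemma pB_inv (j : ℤ) (p : Y) : (pB j)⁻¹ p = (p.1, p.2 - p.1 j) := rfl
lemma pU_apply (n : ℤ) (p : Y) : pU n p = (fun i => p.1 (i - n), p.2) := rfl
lemma pU_inv (n : ℤ) (p : Y) : (pU n)⁻¹ p = (fun i => p.1 (i + n), p.2) := rfl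
lemma pZ_apply (p : Y) : pZ p = (p.1, p.2 + 1) := rfl

def Q0 : Subgroup (Perm Y) := Subgroup.closure {pA (Pi.single 0 1), pB 0, pU 1}

lemma pU_mem (n : ℤ) : pU n ∈ Q0 := by
  have h1 : pU 1 ∈ Q0 := Subgroup.subset_closure (by simp)
  induction n using Int.induction_on with
  | zero =>
    have : pU 0 = 1 := by ext p <;> simp [pU_apply]
    rw [this]; exact Q0.one_mem
  | succ n ih =>
    have : pU (n + 1) = pU n * pU 1 := by
      ext p i
      · simp only [Perm.mul_apply, pU_apply]; ring_nf
      · rfl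
    rw [this]; exact Q0.mul_mem ih h1
  | pred n ih =>
    have : pU (-n - 1) = pU (-n) * (pU 1)⁻¹ := by
      ext p i
      · simp only [Perm.mul_apply, pU_apply, pU_inv]; ring_nf
      · rfl
    rw [this]; exact Q0.mul_mem ih (Q0.inv_mem h1)

lemma pA_mem (n : ℤ) : pA (Pi.single n 1) ∈ Q0 := by
  have h1 : pA (Pi.single 0 1) ∈ Q0 := Subgroup.subset_closure (by simp)
  have : pA (Pi.single n 1) = pU n * pA (Pi.single 0 1) * (pU n)⁻¹ := by
    ext p i
    · simp [Perm.mul_apply, pU_apply, pU_inv, pA_apply, Pi.single_apply, sub_eq_zero]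
    · rfl
  rw [this]
  exact Q0.mul_mem (Q0.mul_mem (pU_mem n) h1) (Q0.inv_mem (pU_mem n))

lemma pB_mem (n : ℤ) : pB n ∈ Q0 := by
  have h1 : pB 0 ∈ Q0 := Subgroup.subset_closure (by simp)
  have : pB n = pU n * pB 0 * (pU n)⁻¹ := by
    ext p i
    · simp [Perm.mul_apply, pU_apply, pU_inv, pB_apply]
    · simp [Perm.mul_apply, pU_apply, pU_inv, pB_apply]
  rw [this]
  exact Q0.mul_mem (Q0.mul_mem (pU_mem n) h1) (Q0.inv_mem (pU_mem n))

lemma comm_eq {i j : ℤ} (h : i ≠ j) :
    pB i * ((pA (Pi.single i 1))⁻¹ * pA (Pi.single j 1)) * (pB i)⁻¹ *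
      ((pA (Pi.single i 1))⁻¹ * pA (Pi.single j 1))⁻¹ = pZ := by
  rw [mul_inv_rev, inv_inv]
  ext p k
  · simp [Perm.mul_apply, pA_apply, pA_inv, pB_apply, pB_inv, pZ_apply]
  · simp only [Perm.mul_apply, pA_apply, pA_inv, pB_apply, pB_inv, pZ_apply, Pi.add_apply,
      Pi.sub_apply, Pi.single_eq_same, Pi.single_eq_of_ne h]
    generalize p.2 = a
    generalize p.1 i = b
    revert a b
    decide

lemma pZ_mem : pZ ∈ Q0 := by
  rw [← comm_eq (show (0 : ℤ) ≠ 1 by decide)]
  have h := Q0.mul_mem (Q0.inv_mem (pA_mem 0)) (pA_mem 1)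
  exact Q0.mul_mem (Q0.mul_mem (Q0.mul_mem (pB_mem 0) h) (Q0.inv_mem (pB_mem 0))) (Q0.inv_mem h)

lemma pZ_central : ∀ q ∈ Q0, q * pZ = pZ * q := by
  intro q hq
  induction hq using Subgroup.closure_induction with
  | mem s hs =>
    rcases hs with rfl | rfl | rfl
    · rfl
    · ext p k
      · rfl
      · simp only [Perm.mul_apply, pB_apply, pZ_apply]; ring
    · rfl
  | one => simp
  | mul a b _ _ ha hb => rw [mul_assoc, hb, ← mul_assoc, ha, mul_assoc]
  | inv a _ ha => exact (Commute.inv_left ha)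

theorem main : ∃ (G H : Type) (_ : Group G) (_ : Group H), Group.FG G ∧ Group.FG H ∧
    QuasiIsometric G H ∧ HighlyTransitive H ∧
    ∀ (K : Type) [Group K], CommensurableGroups G K → ¬ HighlyTransitive K := by
  have : Group.FG Q0 := Group.closure_finite_fg _
  have : Infinite Q0 := by
    refine Infinite.of_injective (fun n : ℤ => (⟨_, pB_mem n⟩ : Q0)) fun m n h => ?_
    have h1 : pB m = pB n := congrArg Subtype.val h
    have h2 := congrArg (fun σ : Perm Y => (σ (Pi.single m 1, 0)).2) h1
    by_contra hmn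
    simp [pB_apply, Pi.single_apply, Ne.symm hmn] at h2
  refine general Q0 ⟨pZ, pZ_mem⟩ ?_ (fun q => Subtype.ext (pZ_central q.1 q.2)) ?_ ?_
  · intro h
    have h1 : pZ = 1 := congrArg Subtype.val h
    have h2 := congrArg (fun σ : Perm Y => (σ (0, 0)).2) h1
    simp [pZ_apply] at h2
  · refine Subtype.ext ?_
    show pZ ^ 2 = 1
    ext p k
    · rfl
    · simp only [sq, Perm.mul_apply, pZ_apply, Perm.one_apply]
      generalize p.2 = a
      revert a
      decide
  · intro N hN
    refine N.normalCore_le ?_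
    obtain ⟨i, j, hne, he⟩ := Finite.exists_ne_map_eq_of_infinite
      (fun n : ℤ => (QuotientGroup.mk (⟨_, pA_mem n⟩ : Q0) : Q0 ⧸ N.normalCore))
    rw [QuotientGroup.eq] at he
    have h1 := N.normalCore.mul_mem (N.normalCore_normal.conj_mem _ he ⟨_, pB_mem i⟩)
      (N.normalCore.inv_mem he)
    convert h1 using 1
    exact Subtype.ext (comm_eq hne).symm

end Pool.Agent.H200Z.HT
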