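import Mathlib
import Pool.Agent.H200Z.Cert

set_option autoImplicit false

namespace Pool.Agent.H200Z

open Finset

def decP (n : ℕ) (r : ℕ × ℕ) : Finset (Fin n) × Finset (Fin n) := (dec n r.1, dec n r.2)

theorem dec_mod (n m : ℕ) : dec n (m % 2 ^ n) = dec n m := by
  ext i
  rw [mem_dec, mem_dec, Nat.testBit_mod_two_pow]
  simp [i.2]

def neB (n a b : ℕ) : Bool := !Nat.beq (a % 2 ^ n) (b % 2 ^ n)

theorem dec_ne_of_neB {n a b : ℕ} (h : neB n a b = true) : dec n a ≠ dec n b := by
  intro h'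
  rw [← dec_mod n a, ← dec_mod n b] at h'
  have := dec_inj (Nat.mod_lt _ (Nat.two_pow_pos n)) (Nat.mod_lt _ (Nat.two_pow_pos n)) h'
  rw [neB, this] at h
  simp at h

def ungB (n : ℕ) (G : List (ℕ × ℕ)) (r : ℕ) : Bool := G.all fun q => neB n (Nat.land q.1 q.2) r

theorem unglued_of_ungB {n : ℕ} {G : List (ℕ × ℕ)} {r : ℕ} (h : ungB n G r = true)
    (A : Finset (Fin n)) : Unglued (G.map (decP n)) A (dec n r) := by
  intro B hB
  rcases hB with hB | hB
  · obtain ⟨q, hq, h1⟩ := List.mem_map.1 hB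
    rw [decP, Prod.mk.injEq] at h1
    rw [← h1.1, ← h1.2, ← dec_land]
    exact dec_ne_of_neB (List.all_eq_true.1 h q hq)
  · obtain ⟨q, hq, h1⟩ := List.mem_map.1 hB
    rw [decP, Prod.mk.injEq] at h1
    rw [← h1.1, ← h1.2, inter_comm, ← dec_land]
    exact dec_ne_of_neB (List.all_eq_true.1 h q hq)

def gluedB (G : List (ℕ × ℕ)) (a b : ℕ) : Bool :=
  G.any fun q => (Nat.beq q.1 a && Nat.beq q.2 b) || (Nat.beq q.1 b && Nat.beq q.2 a)

theorem glued_of_gluedB {n : ℕ} {G : List (ℕ × ℕ)} {a b : ℕ} (h : gluedB G a b = true) :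
    Glued (G.map (decP n)) (dec n a) (dec n b) := by
  simp only [gluedB, List.any_eq_true, Bool.or_eq_true, Bool.and_eq_true, Nat.beq_eq] at h
  obtain ⟨q, hq, h | h⟩ := h
  · left
    exact List.mem_map.2 ⟨q, hq, by rw [decP, h.1, h.2]⟩
  · right
    exact List.mem_map.2 ⟨q, hq, by rw [decP, h.1, h.2]⟩

def sameCellB (G : List (ℕ × ℕ)) (e : ℕ) : ℕ → List ℕ → ℕ → Bool
  | a, [], b => Nat.beq a b
  | a, x :: p, b => gluedB G a x && subB e a && subB e x && sameCellB G e x p b

theorem sameCell_of_B {n : ℕ} {G : List (ℕ × ℕ)} {e : ℕ} (p : List ℕ) : ∀ a b : ℕ,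
    sameCellB G e a p b = true → SameCell (G.map (decP n)) (dec n e) (dec n a) (dec n b) := by
  induction p with
  | nil =>
    intro a b h
    rw [Nat.eq_of_beq_eq_true h]
    exact Relation.ReflTransGen.refl
  | cons x p ih =>
    intro a b h
    simp only [sameCellB, Bool.and_eq_true] at h
    exact Relation.ReflTransGen.head ⟨glued_of_gluedB h.1.1.1, sub_of_subB h.1.1.2,
      sub_of_subB h.1.2⟩ (ih x b h.2)

/-- a step: the two simplices, the codimension two cell (`0` for an attachment), a chain -/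
def stepOK (n d : ℕ) (l P : List ℕ) (G : List (ℕ × ℕ)) (st : ℕ × ℕ × ℕ × List ℕ) : Bool :=
  memB st.1 P && Nat.beq (bits n (Nat.land st.1 st.2.1)).length d &&
    ungB n G (Nat.land st.1 st.2.1) &&
    (if st.2.2.1 = 0 then memB st.2.1 l && P.all (fun x => neB n x st.2.1)
     else memB st.2.1 P && subB st.2.2.1 (Nat.land st.1 st.2.1) &&
      Nat.beq ((bits n st.2.2.1).length + 1) d && sameCellB G st.2.2.1 st.1 st.2.2.2 st.2.1)

def runP : List ℕ → List (ℕ × ℕ × ℕ × List ℕ) → List ℕ
  | P, [] => P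
  | P, st :: r => runP (if st.2.2.1 = 0 then st.2.1 :: P else P) r

def runG : List (ℕ × ℕ) → List (ℕ × ℕ × ℕ × List ℕ) → List (ℕ × ℕ)
  | G, [] => G
  | G, st :: r => runG ((st.1, st.2.1) :: G) r

def runOK (n d : ℕ) (l : List ℕ) : List ℕ → List (ℕ × ℕ) → List (ℕ × ℕ × ℕ × List ℕ) → Bool
  | _, _, [] => true
  | P, G, st :: r => stepOK n d l P G st &&
      runOK n d l (if st.2.2.1 = 0 then st.2.1 :: P else P) ((st.1, st.2.1) :: G) r

theorem stage_of_run {n d : ℕ} {l : List ℕ} (hp : pureB n (d + 1) l = true)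
    (sts : List (ℕ × ℕ × ℕ × List ℕ)) : ∀ (P : List ℕ) (G : List (ℕ × ℕ)),
    LCStage d (gen (decL n l)) (P.map (dec n)) (G.map (decP n)) → runOK n d l P G sts = true →
    LCStage d (gen (decL n l)) ((runP P sts).map (dec n)) ((runG G sts).map (decP n)) := by
  induction sts with
  | nil => intro P G h _; exact h
  | cons st r ih =>
    intro P G h hr
    rw [runOK, Bool.and_eq_true] at hr
    rw [runP, runG]
    refine ih _ _ ?_ hr.2
    have h1 := hr.1
    simp only [stepOK, Bool.and_eq_true, Nat.beq_eq, memB_iff] at h1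
    obtain ⟨⟨⟨h2, h3⟩, h4⟩, h5⟩ := h1
    have hc : (dec n st.1 ∩ dec n st.2.1).card = d := by rw [← dec_land, card_dec]; exact h3
    have hu := fun A => unglued_of_ungB h4 A
    rw [dec_land] at hu
    split_ifs at h5 ⊢ with h6
    · simp only [Bool.and_eq_true, memB_iff, List.all_eq_true] at h5
      refine LCStage.attach _ _ _ _ h (List.mem_map_of_mem h2)
        (isFacet_of_mem (card_of_pureB hp) (dec_mem_decL h5.1)) ?_ hc (hu _)
      intro hm
      obtain ⟨x, hx, h7⟩ := List.mem_map.1 hm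
      exact dec_ne_of_neB (h5.2 x hx) h7
    · simp only [Bool.and_eq_true, memB_iff, Nat.beq_eq] at h5
      obtain ⟨⟨⟨h7, h8⟩, h9⟩, h10⟩ := h5
      refine LCStage.glue _ _ _ _ (dec n st.2.2.1) h (List.mem_map_of_mem h2)
        (List.mem_map_of_mem h7) hc (hu _) (hu _) ?_ (by rw [card_dec]; exact h9)
        (sameCell_of_B _ _ _ h10)
      rw [← dec_land]
      exact sub_of_subB h8

theorem SameCell.symm {V : Type} {G : List (Finset V × Finset V)} {σ A B : Finset V}
    (h : SameCell G σ A B) : SameCell G σ B A := by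
  induction h with
  | refl => exact Relation.ReflTransGen.refl
  | tail _ h ih => exact Relation.ReflTransGen.head ⟨h.1.symm, h.2.2, h.2.1⟩ ih

/-- a shelling of a vertex star, latest simplex first, with the earlier neighbours -/
def shellB (G : List (ℕ × ℕ)) : List (ℕ × List ℕ) → Bool
  | [] => true
  | (F, N) :: r => N.all (fun x => memB x (r.map Prod.fst) && gluedB G F x) &&
      (r.map Prod.fst).all (fun y => N.any (fun x => subB (Nat.land F y) x)) && shellB G r

theorem sameCell_of_shellB {n : ℕ} {G : List (ℕ × ℕ)} (σ : Finset (Fin n))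
    (O : List (ℕ × List ℕ)) : shellB G O = true → ∀ a ∈ O.map Prod.fst, ∀ b ∈ O.map Prod.fst,
    σ ⊆ dec n a → σ ⊆ dec n b → SameCell (G.map (decP n)) σ (dec n a) (dec n b) := by
  induction O with
  | nil => intro _ a ha; simp at ha
  | cons q r ih =>
    obtain ⟨F, N⟩ := q
    intro h
    simp only [shellB, Bool.and_eq_true, List.all_eq_true, List.any_eq_true, memB_iff] at h
    obtain ⟨⟨h1, h2⟩, h3⟩ := h
    have key : ∀ b ∈ r.map Prod.fst, σ ⊆ dec n F → σ ⊆ dec n b →
        SameCell (G.map (decP n)) σ (dec n F) (dec n b) := by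
      intro b hb hF hb'
      obtain ⟨x, hx, h4⟩ := h2 b hb
      have h5 : σ ⊆ dec n x := by
        refine Subset.trans ?_ (sub_of_subB h4)
        rw [dec_land]
        exact subset_inter hF hb'
      exact Relation.ReflTransGen.head ⟨glued_of_gluedB (h1 x hx).2, hF, h5⟩
        (ih h3 x (h1 x hx).1 b hb h5 hb')
    intro a ha b hb hσa hσb
    rw [List.map_cons, List.mem_cons] at ha hb
    rcases ha with rfl | ha
    · rcases hb with rfl | hb
      · exact Relation.ReflTransGen.refl
      · exact key b hb hσa hσb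
    · rcases hb with rfl | hb
      · exact (key a ha hσb hσa).symm
      · exact ih h3 a ha b hb hσa hσb

def finB (n : ℕ) (P : List ℕ) (G : List (ℕ × ℕ)) (Os : List (List (ℕ × List ℕ))) : Bool :=
  (List.range n).all fun v => shellB G (Os.getD v []) &&
    P.all fun F => !F.testBit v || memB F ((Os.getD v []).map Prod.fst)

theorem isLC_of_cert {n d : ℕ} {l : List ℕ} (A : ℕ) (sts : List (ℕ × ℕ × ℕ × List ℕ))
    (Os : List (List (ℕ × List ℕ))) (hp : pureB n (d + 1) l = true) (hA : memB A l = true)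
    (hr : runOK n d l [A] [] sts = true)
    (hall : l.all (fun F => memB F (runP [A] sts)) = true)
    (hfin : finB n (runP [A] sts) (runG [] sts) Os = true) : IsLC d (gen (decL n l)) := by
  refine ⟨fun F hF => card_of_pureB hp F (mem_of_isFacet hF), _, _,
    stage_of_run hp sts [A] [] (LCStage.start _
      (isFacet_of_mem (card_of_pureB hp) (dec_mem_decL (memB_iff.1 hA)))) hr, ?_, ?_⟩
  · intro F hF
    obtain ⟨m, hm, rfl⟩ := mem_decL.1 (mem_of_isFacet hF)
    exact List.mem_map_of_mem (memB_iff.1 (List.all_eq_true.1 hall m hm))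
  · rintro σ ⟨v, hv⟩ X hX Y hY hσX hσY
    obtain ⟨a, ha, rfl⟩ := List.mem_map.1 hX
    obtain ⟨b, hb, rfl⟩ := List.mem_map.1 hY
    simp only [finB, List.all_eq_true, Bool.and_eq_true, List.mem_range, Bool.or_eq_true,
      memB_iff] at hfin
    obtain ⟨h1, h2⟩ := hfin v.val v.2
    refine sameCell_of_shellB σ _ h1 a ?_ b ?_ hσX hσY
    · exact (h2 a ha).resolve_left (by simpa using mem_dec.1 (hσX hv))
    · exact (h2 b hb).resolve_left (by simpa using mem_dec.1 (hσY hv))

end Pool.Agent.H200Z
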